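import Pool.Agent.Helper28.T7.StV

/-!
# Project TK-V, module AV: averaging over the projective line modulo `p`

Port of `Pool/Agent/Helper21/THV/M_AV.lean` from the level `2 p^n` to the level `7 p^n`.
-/

set_option autoImplicit false

namespace Pool.Agent.Helper28.T7V

open Pool.Agent.Helper28.TH (OkH ALPlus)

open Pool.Agent.Helper28.T7 Pool.Agent.Helper28.WK Pool.Agent.Helper28.LV
open Pool.Agent.Helper28.T7 Pool.Agent.Helper14.CV

section aux

variable {R : Type} [AddCommGroup R] {p : ℕ} [Fact p.Prime]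

private theorem neZ : NeZero p := ⟨(Fact.out : p.Prime).ne_zero⟩

private theorem sum_zmod (f : ℤ → R) :
    ∑ i ∈ Finset.range p, f (i : ℤ) = ∑ x : ZMod p, f (x.val : ℤ) := by
  haveI : NeZero p := neZ
  refine Finset.sum_nbij' (fun i : ℕ => (i : ZMod p)) (fun x : ZMod p => x.val)
    (fun i _ => Finset.mem_univ _) (fun x _ => Finset.mem_range.mpr (ZMod.val_lt x)) ?_ ?_ ?_
  · intro i hi
    exact ZMod.val_cast_of_lt (Finset.mem_range.mp hi)
  · intro x _
    exact ZMod.natCast_zmod_val x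
  · intro i hi
    rw [ZMod.val_cast_of_lt (Finset.mem_range.mp hi)]

private theorem per_val {f : ℤ → R} (hf : ∀ i k : ℤ, f (i + p * k) = f i) (i : ℤ) :
    f i = f (((i : ZMod p)).val : ℤ) := by
  haveI : NeZero p := neZ
  rw [ZMod.val_intCast]
  conv_lhs => rw [← Int.emod_add_mul_ediv i (p : ℤ)]
  rw [hf]

private theorem sum_shift {f : ℤ → R} (hf : ∀ i k : ℤ, f (i + p * k) = f i) (c : ℤ) :
    ∑ i ∈ Finset.range p, f ((i : ℤ) + c) = ∑ i ∈ Finset.range p, f (i : ℤ) := by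
  haveI : NeZero p := neZ
  rw [sum_zmod (fun i => f (i + c)), sum_zmod f]
  refine Fintype.sum_equiv (Equiv.addRight (c : ZMod p)) _ _ fun x => ?_
  rw [per_val hf]
  congr 2
  simp

private theorem sum_neg {f : ℤ → R} (hf : ∀ i k : ℤ, f (i + p * k) = f i) :
    ∑ i ∈ Finset.range p, f (-(i : ℤ)) = ∑ i ∈ Finset.range p, f (i : ℤ) := by
  haveI : NeZero p := neZ
  rw [sum_zmod (fun i => f (-i)), sum_zmod f]
  refine Fintype.sum_equiv (Equiv.neg (ZMod p)) _ _ fun x => ?_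
  rw [per_val hf]
  congr 2
  simp

private theorem sum_inv (hp2 : p ≠ 7) {f g : ℤ → R}
    (hfg : ∀ i j : ℤ, (p : ℤ) ∣ 1 + 7 * (i * j) → f i = g j) :
    ∑ i ∈ Finset.range p, f (i : ℤ) + g 0 = ∑ i ∈ Finset.range p, g (i : ℤ) + f 0 := by
  haveI : NeZero p := neZ
  classical
  have h20 : (7 : ZMod p) ≠ 0 := by
    intro h
    have h1 : ((7 : ℕ) : ZMod p) = 0 := by exact_mod_cast h
    rw [ZMod.natCast_eq_zero_iff] at h1
    have h2 := (Nat.prime_dvd_prime_iff_eq (Fact.out : p.Prime) Nat.prime_seven).1 h1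
    exact hp2 h2
  have e : ∀ h : ℤ → R, ∑ i ∈ Finset.range p, h (i : ℤ) =
      h 0 + ∑ x ∈ (Finset.univ : Finset (ZMod p)).erase 0, h (x.val : ℤ) := by
    intro h
    rw [sum_zmod h, ← Finset.add_sum_erase _ _ (Finset.mem_univ (0 : ZMod p)), ZMod.val_zero,
      Nat.cast_zero]
  have h2 : ∑ x ∈ (Finset.univ : Finset (ZMod p)).erase 0, f (x.val : ℤ) =
      ∑ x ∈ (Finset.univ : Finset (ZMod p)).erase 0, g (x.val : ℤ) := by
    refine Finset.sum_nbij' (fun x => -(7 * x)⁻¹) (fun x => -(7 * x)⁻¹) ?_ ?_ ?_ ?_ ?_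
    · intro x hx
      rw [Finset.mem_erase] at hx ⊢
      exact ⟨neg_ne_zero.mpr (inv_ne_zero (mul_ne_zero h20 hx.1)), Finset.mem_univ _⟩
    · intro x hx
      rw [Finset.mem_erase] at hx ⊢
      exact ⟨neg_ne_zero.mpr (inv_ne_zero (mul_ne_zero h20 hx.1)), Finset.mem_univ _⟩
    · intro x hx
      rw [Finset.mem_erase] at hx
      have hx0 := hx.1
      field_simp
      try ring
    · intro x hx
      rw [Finset.mem_erase] at hx
      have hx0 := hx.1
      field_simp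
      try ring
    · intro x hx
      rw [Finset.mem_erase] at hx
      refine hfg _ _ ?_
      rw [← ZMod.intCast_zmod_eq_zero_iff_dvd]
      push_cast
      rw [ZMod.natCast_zmod_val, ZMod.natCast_zmod_val, mul_neg, mul_inv, mul_neg,
        mul_comm (7⁻¹ : ZMod p), ← mul_assoc x, mul_inv_cancel₀ hx.1, one_mul, mul_inv_cancel₀ h20]
      ring
  rw [e f, e g, h2]
  abel

end aux

/-- nonzero multiples of `HTy` matrices -/
private def QQ (α β γ δ : ℤ) : Prop := ∃ k a b c d : ℤ, k ≠ 0 ∧ HTy a b c d ∧ α = k * a ∧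
  β = k * b ∧ γ = k * c ∧ δ = k * d

private theorem QQ.of {α β γ δ : ℤ} (h : HTy α β γ δ) : QQ α β γ δ :=
  ⟨1, α, β, γ, δ, one_ne_zero, h, (one_mul _).symm, (one_mul _).symm, (one_mul _).symm,
    (one_mul _).symm⟩

/-- products of `HTy` matrices -/
private theorem QQ.mulH {x y z t a b c d : ℤ} (h : HTy x y z t) (h' : HTy a b c d) :
    QQ (x * a + y * c) (x * b + y * d) (z * a + t * c) (z * b + t * d) := by
  have hdet : (x * a + y * c) * (z * b + t * d) - (x * b + y * d) * (z * a + t * c) =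
      (x * t - y * z) * (a * d - b * c) := by ring
  rcases h with ⟨h1, hz⟩ | ⟨h1, hx, hz, ht⟩
  · rcases h' with ⟨h1', hc⟩ | ⟨h1', ha, hc, hd⟩
    · refine QQ.of (Or.inl ⟨?_, ?_⟩)
      · rw [hdet, h1, h1']; norm_num
      · exact dvd_add (Dvd.dvd.mul_right hz a) (Dvd.dvd.mul_left hc t)
    · refine QQ.of (Or.inr ⟨?_, ?_, ?_, ?_⟩)
      · rw [hdet, h1, h1']; norm_num
      · exact dvd_add (Dvd.dvd.mul_left ha x) (Dvd.dvd.mul_left hc y)
      · exact dvd_add (Dvd.dvd.mul_left ha z) (Dvd.dvd.mul_left hc t)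
      · exact dvd_add (Dvd.dvd.mul_right hz b) (Dvd.dvd.mul_left hd t)
  · rcases h' with ⟨h1', hc⟩ | ⟨h1', ha, hc, hd⟩
    · refine QQ.of (Or.inr ⟨?_, ?_, ?_, ?_⟩)
      · rw [hdet, h1, h1']; norm_num
      · exact dvd_add (Dvd.dvd.mul_right hx a) (Dvd.dvd.mul_left hc y)
      · exact dvd_add (Dvd.dvd.mul_right hz a) (Dvd.dvd.mul_right ht c)
      · exact dvd_add (Dvd.dvd.mul_right hz b) (Dvd.dvd.mul_right ht d)
    · obtain ⟨x', rfl⟩ := hx
      obtain ⟨z', rfl⟩ := hz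
      obtain ⟨t', rfl⟩ := ht
      obtain ⟨a', rfl⟩ := ha
      obtain ⟨c', rfl⟩ := hc
      obtain ⟨d', rfl⟩ := hd
      refine ⟨7, 7 * (x' * a') + y * c', x' * b + y * d', 7 * (z' * a') + 7 * (t' * c'),
        z' * b + 7 * (t' * d'), (by norm_num), Or.inl ⟨?_, ?_⟩, by ring, by ring, by ring, by ring⟩
      · have e : (7 * x' * (7 * t') - y * (7 * z')) * (7 * a' * (7 * d') - b * (7 * c')) = 49 := by
          rw [h1, h1']; norm_num
        have e2 : 49 * ((7 * (x' * a') + y * c') * (z' * b + 7 * (t' * d')) -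
            (x' * b + y * d') * (7 * (z' * a') + 7 * (t' * c'))) =
            (7 * x' * (7 * t') - y * (7 * z')) * (7 * a' * (7 * d') - b * (7 * c')) := by
          ring
        rw [e] at e2
        linarith
      · exact ⟨z' * a' + t' * c', by ring⟩

private theorem QQ.mul {x y z t α β γ δ : ℤ} (h : HTy x y z t) (h' : QQ α β γ δ) :
    QQ (x * α + y * γ) (x * β + y * δ) (z * α + t * γ) (z * β + t * δ) := by
  obtain ⟨k, a, b, c, d, hk, hH, rfl, rfl, rfl, rfl⟩ := h'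
  obtain ⟨k', a', b', c', d', hk', hH', e1, e2, e3, e4⟩ := QQ.mulH h hH
  refine ⟨k * k', a', b', c', d', mul_ne_zero hk hk', hH', ?_, ?_, ?_, ?_⟩
  · rw [mul_assoc, ← e1]; ring
  · rw [mul_assoc, ← e2]; ring
  · rw [mul_assoc, ← e3]; ring
  · rw [mul_assoc, ← e4]; ring

private theorem QQ.n {α β γ δ : ℤ} (i : ℤ) (h : QQ α β γ δ) : QQ (α + i * γ) (β + i * δ) γ δ := by
  have := QQ.mul (x := 1) (y := i) (z := 0) (t := 1) (Or.inl ⟨by ring, dvd_zero _⟩) h
  simpa using this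

private theorem QQ.l {α β γ δ : ℤ} (i : ℤ) (h : QQ α β γ δ) :
    QQ α β (7 * i * α + γ) (7 * i * β + δ) := by
  have := QQ.mul (x := 1) (y := 0) (z := 7 * i) (t := 1)
    (Or.inl ⟨by ring, ⟨i, rfl⟩⟩) h
  simpa using this

private theorem QQ.W {α β γ δ : ℤ} (h : QQ α β γ δ) : QQ (-γ) (-δ) (7 * α) (7 * β) := by
  have := QQ.mul (x := 0) (y := -1) (z := 7) (t := 0)
    (Or.inr ⟨by ring, dvd_zero _, dvd_refl _, dvd_zero _⟩) h
  simpa using this

theorem hAV : ZAV := by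
  intro p hp m m' hp2 Hh Hh' H1 _H2 H3 H4
  have hpp : p.Prime := hp.out
  -- the hypotheses for multiples
  have K1 : ∀ x y z t α β γ δ : ℤ, HTy x y z t → QQ α β γ δ → (p : ℤ) ∣ y →
      m (x * α + y * γ) (x * β + y * δ) (z * α + t * γ) (z * β + t * δ) = m α β γ δ := by
    intro x y z t α β γ δ h h' hy
    obtain ⟨k, a, b, c, d, hk, hH, rfl, rfl, rfl, rfl⟩ := h'
    rw [Hh k a b c d hk, ← H1 x y z t a b c d h hH hy,
      ← Hh k (x * a + y * c) (x * b + y * d) (z * a + t * c) (z * b + t * d) hk]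
    congr 1 <;> ring
  have K3 : ∀ α β γ δ : ℤ, QQ α β γ δ →
      (p : ℚ_[p]) * m' α β γ δ = ∑ i ∈ Finset.range p, m (α + i * γ) (β + i * δ) γ δ := by
    intro α β γ δ h'
    obtain ⟨k, a, b, c, d, hk, hH, rfl, rfl, rfl, rfl⟩ := h'
    rw [Hh' k a b c d hk, H3 a b c d hH]
    refine Finset.sum_congr rfl fun i _ => ?_
    rw [← Hh k (a + i * c) (b + i * d) c d hk]
    congr 1 <;> ring
  have K4 : ∀ α β γ δ : ℤ, QQ α β γ δ →
      (p : ℚ_[p]) * m α β γ δ =
        ∑ i ∈ Finset.range p, m' α β (7 * i * α + γ) (7 * i * β + δ) := by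
    intro α β γ δ h'
    obtain ⟨k, a, b, c, d, hk, hH, rfl, rfl, rfl, rfl⟩ := h'
    rw [Hh k a b c d hk, H4 a b c d hH]
    refine Finset.sum_congr rfl fun i _ => ?_
    rw [← Hh' k a b (7 * i * a + c) (7 * i * b + d) hk]
    congr 1 <;> ring
  -- periodicity
  have per : ∀ α β γ δ : ℤ, QQ α β γ δ → ∀ i k : ℤ,
      m (α + (i + p * k) * γ) (β + (i + p * k) * δ) γ δ = m (α + i * γ) (β + i * δ) γ δ := by
    intro α β γ δ hd i k
    have h := K1 1 (p * k) 0 1 (α + i * γ) (β + i * δ) γ δ (Or.inl ⟨by ring, dvd_zero _⟩)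
      (hd.n i) (Dvd.intro _ rfl)
    rw [← h]
    congr 1 <;> ring
  have neg2 : ∀ α β γ δ : ℤ, m (-7 * α) (-7 * β) (-7 * γ) (-7 * δ) = m α β γ δ :=
    fun α β γ δ => Hh (-7) α β γ δ (by norm_num)
  -- lower triangular matrices
  have low : ∀ α β γ δ c : ℤ, QQ α β γ δ →
      m α β (7 * c * α + γ) (7 * c * β + δ) = m α β γ δ := by
    intro α β γ δ c hd
    have h := K1 1 0 (7 * c) 1 α β γ δ (Or.inl ⟨by ring, ⟨c, rfl⟩⟩) hd (dvd_zero _)
    rw [← h]
    congr 1 <;> ring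
  set s : ℤ → ℤ → ℤ → ℤ → ℚ_[p] := fun α β γ δ =>
    m (-γ) (-δ) (7 * α) (7 * β) + ∑ i ∈ Finset.range p, m (α + i * γ) (β + i * δ) γ δ with hs
  -- (1)
  have s1 : ∀ α β γ δ c : ℤ, QQ α β γ δ → s (α + c * γ) (β + c * δ) γ δ = s α β γ δ := by
    intro α β γ δ c hd
    have e1 : m (-γ) (-δ) (7 * (α + c * γ)) (7 * (β + c * δ)) = m (-γ) (-δ) (7 * α) (7 * β) := by
      have h := low (-γ) (-δ) (7 * α) (7 * β) (-c) hd.W
      rw [← h]
      congr 1 <;> ring
    have e2 := sum_shift (p := p) (f := fun i => m (α + i * γ) (β + i * δ) γ δ)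
      (per α β γ δ hd) c
    simp only [hs]
    rw [e1]
    congr 1
    rw [← e2]
    refine Finset.sum_congr rfl fun i _ => ?_
    congr 1 <;> ring
  -- (7)
  have s2 : ∀ α β γ δ : ℤ, QQ α β γ δ → s (-γ) (-δ) (7 * α) (7 * β) = s α β γ δ := by
    intro α β γ δ hd
    have e := sum_inv (p := p) hp2
      (f := fun i => m (-γ + i * (7 * α)) (-δ + i * (7 * β)) (7 * α) (7 * β))
      (g := fun i => m (α + i * γ) (β + i * δ) γ δ) (by
        intro i j hij
        have h := K1 (7 * i) (-(1 + 7 * (i * j))) 7 (-(7 * j)) (α + j * γ) (β + j * δ) γ δ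
          (Or.inr ⟨by ring, ⟨i, rfl⟩, dvd_refl _, ⟨-j, by ring⟩⟩)
          (hd.n j) ((dvd_neg).2 hij)
        show m (-γ + i * (7 * α)) (-δ + i * (7 * β)) (7 * α) (7 * β) =
          m (α + j * γ) (β + j * δ) γ δ
        rw [← h]
        congr 1 <;> ring)
    have e0 : m (-(7 * α)) (-(7 * β)) (7 * -γ) (7 * -δ) = m α β γ δ := by
      rw [← neg2 α β γ δ]
      congr 1 <;> ring
    simp only [hs]
    rw [e0]
    have e1 : m (α + 0 * γ) (β + 0 * δ) γ δ = m α β γ δ := by congr 1 <;> ring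
    have e2 : m (-γ + 0 * (7 * α)) (-δ + 0 * (7 * β)) (7 * α) (7 * β) =
        m (-γ) (-δ) (7 * α) (7 * β) := by
      congr 1 <;> ring
    simp only [e1, e2] at e
    linear_combination e
  -- (3)
  have s3 : ∀ α β γ δ c : ℤ, QQ α β γ δ →
      s α β (7 * c * α + γ) (7 * c * β + δ) = s α β γ δ := by
    intro α β γ δ c hd
    rw [← s2 α β (7 * c * α + γ) (7 * c * β + δ) (hd.l c)]
    have h := s1 (-γ) (-δ) (7 * α) (7 * β) (-c) hd.W
    rw [← s2 α β γ δ hd, ← h]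
    congr 1 <;> ring
  -- (4)
  have h4 : ∀ α β γ δ : ℤ, QQ α β γ δ →
      (p : ℚ_[p]) * m' α β γ δ = s α β γ δ - m (-γ) (-δ) (7 * α) (7 * β) := by
    intro α β γ δ hd
    rw [K3 α β γ δ hd]
    simp only [hs]
    ring
  have h5 : ∀ α β γ δ : ℤ, QQ α β γ δ →
      ((p : ℚ_[p]) + 1) * m α β γ δ = s α β γ δ := by
    intro α β γ δ hd
    have e1 : (p : ℚ_[p]) * ((p : ℚ_[p]) * m α β γ δ) =
        ∑ i ∈ Finset.range p,
          (s α β γ δ - m (-(7 * i * α + γ)) (-(7 * i * β + δ)) (7 * α) (7 * β)) := by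
      rw [K4 α β γ δ hd, Finset.mul_sum]
      refine Finset.sum_congr rfl fun i _ => ?_
      rw [h4 α β (7 * i * α + γ) (7 * i * β + δ) (hd.l i), s3 α β γ δ i hd]
    have e2 : ∑ i ∈ Finset.range p, m (-(7 * i * α + γ)) (-(7 * i * β + δ)) (7 * α) (7 * β) =
        s α β γ δ - m α β γ δ := by
      have n1 := sum_neg (p := p)
        (f := fun i => m (-γ + i * (7 * α)) (-δ + i * (7 * β)) (7 * α) (7 * β))
        (per (-γ) (-δ) (7 * α) (7 * β) hd.W)
      have n2 : s (-γ) (-δ) (7 * α) (7 * β) = s α β γ δ := s2 α β γ δ hd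
      have n3 : m (-(7 * α)) (-(7 * β)) (7 * -γ) (7 * -δ) = m α β γ δ := by
        rw [← neg2 α β γ δ]
        congr 1 <;> ring
      simp only [hs] at n2 ⊢
      rw [n3] at n2
      rw [← n2, ← n1]
      rw [add_sub_cancel_left]
      refine Finset.sum_congr rfl fun i _ => ?_
      congr 1 <;> ring
    rw [Finset.sum_sub_distrib, e2, Finset.sum_const, Finset.card_range, nsmul_eq_mul] at e1
    have hne : (p : ℚ_[p]) - 1 ≠ 0 := by
      rw [sub_ne_zero]
      exact_mod_cast hpp.one_lt.ne'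
    apply mul_left_cancel₀ hne
    linear_combination e1
  intro α β γ δ hdH
  have hd : QQ α β γ δ := QQ.of hdH
  have hp1 : (p : ℚ_[p]) + 1 ≠ 0 := by exact_mod_cast Nat.succ_ne_zero p
  have hp0 : (p : ℚ_[p]) ≠ 0 := by exact_mod_cast hpp.ne_zero
  apply mul_left_cancel₀ hp0
  rw [K3 α β γ δ hd]
  have e : ∀ i ∈ Finset.range p, m (α + i * γ) (β + i * δ) γ δ = m α β γ δ := by
    intro i _
    apply mul_left_cancel₀ hp1
    rw [h5 _ _ _ _ (hd.n i), h5 _ _ _ _ hd, s1 α β γ δ i hd]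
  rw [Finset.sum_congr rfl e, Finset.sum_const, Finset.card_range, nsmul_eq_mul]

end Pool.Agent.Helper28.T7V
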