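import Pool.Agent.Helper28.T7.StV
import Pool.Agent.Helper28.T7.M_RgQ

/-!
# Project TK, low levels, module F1: level `7p`, `a` odd (port of `Pool/Agent/Helper96/THV/M_F1.lean`)
-/

set_option autoImplicit false

namespace Pool.Agent.Helper28.T7V

open Pool.Agent.Helper28.TH (OkH ALPlus)
open Pool.Agent.Helper28.T7 Pool.Agent.Helper28.WK Pool.Agent.Helper28.LV Pool.Agent.Helper14.CV

private theorem u_ne {p : ℕ} (hp : (p : ℤ) ≠ 0) {x y : ℤ} (h : x ≠ 0 ∨ y ≠ 0) :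
    x ≠ 0 ∨ (p : ℤ) * y ≠ 0 := by
  rcases h with h | h
  · exact Or.inl h
  · exact Or.inr (mul_ne_zero hp h)

private theorem u_ne' {p : ℕ} (hp : (p : ℤ) ≠ 0) {x y : ℤ} (h : x ≠ 0 ∨ y ≠ 0) :
    (p : ℤ) * x ≠ 0 ∨ y ≠ 0 := by
  rcases h with h | h
  · exact Or.inl (mul_ne_zero hp h)
  · exact Or.inr h

/-- Step (0). -/
private theorem nc_all {p : ℕ} [Fact p.Prime] (hp : (p : ℤ) ≠ 0) (a : ℕ) (ψ : ℤ → ℤ → ℤ_[p])
    (hψ : Homog ψ)
    (hNc : ∀ c : ℤ, 7 * (p : ℤ) ∣ c → EqC (Nc a c (act p 0 0 1 ψ)) 0) (c : ℤ) (h2c : 7 ∣ c) :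
    EqC (Nc a c ψ) 0 := by
  obtain ⟨k, hk⟩ := hNc (p * c) (by
    rw [mul_comm 7 (p : ℤ)]
    exact mul_dvd_mul_left _ h2c)
  refine ⟨k, fun x y hxy => ?_⟩
  have h1 : Nc a (p * c) (act p 0 0 1 ψ) x (p * y) = 0 + k := hk x (p * y) (u_ne hp hxy)
  change Nc a c ψ x y = 0 + k
  rw [← h1]
  simp only [Nc, act]
  refine Finset.sum_congr rfl fun j _ => ?_
  congr 1
  have h2 : x ≠ 0 ∨ (j : ℤ) * c * x + y ≠ 0 := by
    by_cases hx : x = 0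
    · right
      rw [hx, mul_zero, zero_add]
      rcases hxy with h | h
      · exact absurd hx h
      · exact h
    · exact Or.inl hx
  rw [← hψ p x ((j : ℤ) * c * x + y) hp h2]
  congr 1 <;> ring

/-- Step (1). -/
private theorem w_inv {p : ℕ} [Fact p.Prime] (hp : (p : ℤ) ≠ 0) (ψ : ℤ → ℤ → ℤ_[p])
    (hψ : Homog ψ) (hS : EqC (act 0 (-1) (7 * (p : ℤ)) 0 ψ) (act p 0 0 1 ψ)) :
    ∃ k : ℤ_[p], ∀ x y : ℤ, (x ≠ 0 ∨ y ≠ 0) → ψ (-y) (7 * x) = ψ x y + k := by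
  obtain ⟨k, hk⟩ := hS
  refine ⟨k, fun x y hxy => ?_⟩
  have h1 := hk x (p * y) (u_ne hp hxy)
  have e1 : act 0 (-1) (7 * (p : ℤ)) 0 ψ x (p * y) = ψ (-y) (7 * x) := by
    have h3 : -y ≠ 0 ∨ 7 * x ≠ 0 := by
      rcases hxy with h | h
      · exact Or.inr (mul_ne_zero (by norm_num) h)
      · exact Or.inl (neg_ne_zero.mpr h)
    rw [← hψ p (-y) (7 * x) hp h3]
    simp only [act]
    congr 1 <;> ring
  have e2 : act p 0 0 1 ψ x (p * y) = ψ x y := by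
    rw [← hψ p x y hp hxy]
    simp only [act]
    congr 1 <;> ring
  rw [e1, e2] at h1
  exact h1

theorem hF1 : ZF1 := by
  intro hMS hT hU hE p hpf κ a Φ ψ hp2 hκ ha heqv hψ hsym hu hNb hNc hS
  have hp0 : (p : ℤ) ≠ 0 := by exact_mod_cast hpf.out.ne_zero
  have hpQ : (p : ℚ_[p]) ≠ 0 := by exact_mod_cast hpf.out.ne_zero
  have hpodd : ¬ (7 : ℤ) ∣ (p : ℤ) := by
    intro h
    have h1 : 7 ∣ p := by exact_mod_cast h
    exact hp2 ((Nat.prime_dvd_prime_iff_eq Nat.prime_seven hpf.out).1 h1).symm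
  have hNc' := nc_all hp0 a ψ hψ hNc
  obtain ⟨k, hk⟩ := w_inv hp0 ψ hψ hS
  obtain ⟨k', hk'⟩ := hu
  have hκQ : (κ : ℚ_[p]) ≠ 0 := by exact_mod_cast hκ
  have hsym' : ∀ M : ℕ, 3 ≤ M → SymH p M (M + 1) (redP M ψ) := by
    intro M hM
    obtain ⟨g1, g2⟩ := hsym M hM
    refine ⟨g1, fun α β γ δ hd hb hc => g2 α β γ δ hd hb (dvd_trans ?_ hc)⟩
    exact pow_dvd_pow _ (Nat.le_succ M)
  obtain ⟨F, hF⟩ := hMS p hpf a ψ hp2 hψ hsym' hNb hNc'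
  obtain ⟨E1, E2, E3, E4⟩ := hE p hpf a Φ
  -- step (2)
  have step2 : ∀ v1 v2 w1 w2 : ℤ, (v1 ≠ 0 ∨ v2 ≠ 0) → (w1 ≠ 0 ∨ w2 ≠ 0) →
      ∀ α β γ δ : ℚ_[p], F v1 v2 w1 w2 (-γ) (-δ) α β = F v1 v2 w1 w2 α β γ δ := by
    intro v1 v2 w1 w2 hv hw
    obtain ⟨r1, r2⟩ := hF v1 v2 w1 w2 hv hw
    obtain ⟨_, _, t3, _, t5⟩ := hT p hpf a _ r1
    obtain ⟨_, _, _, t4', _⟩ := hT p hpf a _ t3
    have hR := t4' _ 1 (-1) r1
    have hz := hRgQ p hpf a 0 _ hR (by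
      intro α β γ δ hd h2 _ _ _ _
      have hgw := ne_zero_of_det (by rw [hd]; exact one_ne_zero : α * δ - β * γ ≠ 0) hw
      have hgv := ne_zero_of_det (by rw [hd]; exact one_ne_zero : α * δ - β * γ ≠ 0) hv
      have q1 := r2 α β γ δ (Or.inl ⟨hd, h2⟩)
      have q2 := r2 (-γ) (-δ) (7 * α) (7 * β) (Or.inr ⟨by linear_combination 7 * hd,
        (dvd_neg).2 h2, dvd_mul_right 7 α, dvd_mul_right 7 β⟩)
      have hdW : -γ * (7 * β) - -δ * (7 * α) = 7 := by linear_combination 7 * hd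
      rw [hd] at q1
      rw [hdW] at q2
      have q3 := hk _ _ hgw
      have q4 := hk _ _ hgv
      have m1 : ψ (-γ * w1 + -δ * w2) (7 * α * w1 + 7 * β * w2) -
          ψ (-γ * v1 + -δ * v2) (7 * α * v1 + 7 * β * v2) =
          ψ (α * w1 + β * w2) (γ * w1 + δ * w2) - ψ (α * v1 + β * v2) (γ * v1 + δ * v2) := by
        have n1 : -γ * w1 + -δ * w2 = -(γ * w1 + δ * w2) := by ring
        have n2 : -γ * v1 + -δ * v2 = -(γ * v1 + δ * v2) := by ring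
        have n3 : 7 * α * w1 + 7 * β * w2 = 7 * (α * w1 + β * w2) := by ring
        have n4 : 7 * α * v1 + 7 * β * v2 = 7 * (α * v1 + β * v2) := by ring
        rw [n1, n2, n3, n4, q3, q4]
        ring
      rw [m1] at q2
      have q5 := t5 1 7 (-γ) (-δ) α β
      rw [PadicInt.coe_mul] at q1 q2
      have c1 : ((((1 : ℤ) ^ a : ℤ) : ℤ_[p]) : ℚ_[p]) = 1 := by simp
      have c2 : ((((7 : ℤ) ^ a : ℤ) : ℤ_[p]) : ℚ_[p]) = (7 : ℚ_[p]) ^ a := by push_cast; rfl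
      rw [c1, one_mul] at q1
      rw [c2, q1] at q2
      push_cast at q2
      have q6 : F v1 v2 w1 w2 (1 * -(γ : ℚ_[p])) (1 * -(δ : ℚ_[p])) (7 * α) (7 * β) =
          F v1 v2 w1 w2 (-(γ : ℚ_[p])) (-(δ : ℚ_[p])) (7 * α) (7 * β) := by rw [one_mul, one_mul]
      rw [q6, one_mul, ← q2] at q5
      have h2a : (7 : ℚ_[p]) ^ a ≠ 0 := pow_ne_zero _ (by norm_num)
      have q7 := mul_left_cancel₀ h2a q5
      change 1 * F v1 v2 w1 w2 (-(γ : ℚ_[p])) (-(δ : ℚ_[p])) α β +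
        (-1) * F v1 v2 w1 w2 α β γ δ = 0
      rw [← q7]
      ring)
    intro α β γ δ
    have := hz α β γ δ
    linear_combination this
  -- step (3)
  have step3 : ∀ v1 v2 w1 w2 : ℤ, (v1 ≠ 0 ∨ v2 ≠ 0) → (w1 ≠ 0 ∨ w2 ≠ 0) →
      ∀ α β γ δ : ℚ_[p], (κ : ℚ_[p]) * EGf a Φ v1 v2 w1 w2 α β γ δ =
        F (p * v1) v2 (p * w1) w2 α (p * β) ((p : ℚ_[p])⁻¹ * γ) δ - F v1 v2 w1 w2 α β γ δ := by
    intro v1 v2 w1 w2 hv hw
    obtain ⟨r1, r2⟩ := hF v1 v2 w1 w2 hv hw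
    obtain ⟨s1, s2⟩ := hF (p * v1) v2 (p * w1) w2 (u_ne' hp0 hv) (u_ne' hp0 hw)
    obtain ⟨_, t2, _, _, _⟩ := hT p hpf a _ s1
    have t2' := t2 (p : ℚ_[p]) ((p : ℚ_[p])⁻¹)
    obtain ⟨_, _, _, t4, _⟩ := hT p hpf a _ t2'
    have t4' := t4 _ 1 (-1) r1
    obtain ⟨_, _, _, t5, _⟩ := hT p hpf a _ (E1 v1 v2 w1 w2)
    have hR := t5 _ (κ : ℚ_[p]) (-1) t4'
    have hz := hRgQ p hpf a 1 _ hR (by
      intro α β γ δ hd h2 _ _ hc _
      rw [pow_one] at hc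
      have hc' := hc
      obtain ⟨γ', hγ⟩ := hc
      have h2' : (7 : ℤ) ∣ γ' := by
        rw [hγ] at h2
        rcases (Int.prime_iff_natAbs_prime.2 (by norm_num) : Prime (7 : ℤ)).dvd_or_dvd h2 with h | h
        · exact absurd h hpodd
        · exact h
      have hgw := ne_zero_of_det (by rw [hd]; exact one_ne_zero : α * δ - β * γ ≠ 0) hw
      have hgv := ne_zero_of_det (by rw [hd]; exact one_ne_zero : α * δ - β * γ ≠ 0) hv
      have hd' : α * δ - p * β * γ' = 1 := by rw [← hd, hγ]; ring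
      have q1 := r2 α β γ δ (Or.inl ⟨hd, h2⟩)
      have q2 := s2 α (p * β) γ' δ (Or.inl ⟨hd', h2'⟩)
      rw [hd, PadicInt.coe_mul] at q1
      rw [hd', PadicInt.coe_mul] at q2
      have c1 : ((((1 : ℤ) ^ a : ℤ) : ℤ_[p]) : ℚ_[p]) = 1 := by simp
      rw [c1, one_mul] at q1 q2
      have q3 := hk' _ _ hgw
      have q4 := hk' _ _ hgv
      have q5 := E4 v1 v2 w1 w2 α β γ δ hv hw (heqv α β γ δ hd h2 hc')
      simp only [Pi.sub_apply, Pi.smul_apply, act, cp, zsmul_eq_mul] at q3 q4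
      have m1 : ψ (α * (p * w1) + p * β * w2) (γ' * (p * w1) + δ * w2) =
          ψ (p * (α * w1 + β * w2) + 0 * (γ * w1 + δ * w2))
            (0 * (α * w1 + β * w2) + 1 * (γ * w1 + δ * w2)) := by
        rw [hγ]
        congr 1 <;> ring
      have m2 : ψ (α * (p * v1) + p * β * v2) (γ' * (p * v1) + δ * v2) =
          ψ (p * (α * v1 + β * v2) + 0 * (γ * v1 + δ * v2))
            (0 * (α * v1 + β * v2) + 1 * (γ * v1 + δ * v2)) := by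
        rw [hγ]
        congr 1 <;> ring
      have hγ2 : (p : ℚ_[p])⁻¹ * ((γ : ℤ) : ℚ_[p]) = ((γ' : ℤ) : ℚ_[p]) := by
        rw [hγ]
        push_cast
        rw [← mul_assoc, inv_mul_cancel₀ hpQ, one_mul]
      have m3 : (ψ (α * (p * w1) + p * β * w2) (γ' * (p * w1) + δ * w2) -
          ψ (α * (p * v1) + p * β * v2) (γ' * (p * v1) + δ * v2)) -
          (ψ (α * w1 + β * w2) (γ * w1 + δ * w2) - ψ (α * v1 + β * v2) (γ * v1 + δ * v2)) =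
          (κ : ℤ_[p]) * (Φ (α * w1 + β * w2) (γ * w1 + δ * w2) a -
            Φ (α * v1 + β * v2) (γ * v1 + δ * v2) a) := by
        rw [m1, m2]
        linear_combination q3 - q4
      have m4 := congrArg (fun z : ℤ_[p] => (z : ℚ_[p])) m3
      rw [PadicInt.coe_sub, q2, q1, PadicInt.coe_mul, q5, PadicInt.coe_intCast] at m4
      rw [hγ2]
      push_cast at m4 ⊢
      linear_combination -m4)
    intro α β γ δ
    have := hz α β γ δ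
    linear_combination this
  -- step (4)
  have step4 : ∀ v1 v2 w1 w2 : ℤ, (v1 ≠ 0 ∨ v2 ≠ 0) → (w1 ≠ 0 ∨ w2 ≠ 0) →
      Φ w1 w2 a = Φ v1 v2 a := by
    intro v1 v2 w1 w2 hv hw
    have hv' := u_ne' hp0 hv
    have hw' := u_ne' hp0 hw
    have q1 := step3 v1 v2 w1 w2 hv hw 1 0 0 1
    have q2 := step3 v1 v2 w1 w2 hv hw (-0) (-1) 1 0
    have q3 := step2 v1 v2 w1 w2 hv hw 1 0 0 1
    obtain ⟨s1, s2⟩ := hF (p * v1) v2 (p * w1) w2 hv' hw'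
    obtain ⟨_, _, _, _, t5⟩ := hT p hpf a _ s1
    have q4 := t5 (p : ℚ_[p]) ((p : ℚ_[p])⁻¹) 0 (-1) 1 0
    rw [mul_inv_cancel₀ hpQ, one_pow, one_mul] at q4
    have q5 := step2 (p * v1) v2 (p * w1) w2 hv' hw' 1 0 0 1
    have q6 := E2 v1 v2 w1 w2 1 0 0 1
    rw [ha.neg_one_pow] at q6
    have q7 := E3 v1 v2 w1 w2
    have e1 : F (p * v1) v2 (p * w1) w2 1 (p * 0) ((p : ℚ_[p])⁻¹ * 0) 1 =
        F (p * v1) v2 (p * w1) w2 1 0 0 1 := by rw [mul_zero, mul_zero]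
    have e2 : F (p * v1) v2 (p * w1) w2 (-0) (p * -1) ((p : ℚ_[p])⁻¹ * 1) 0 =
        F (p * v1) v2 (p * w1) w2 (p * 0) (p * -1) ((p : ℚ_[p])⁻¹ * 1) ((p : ℚ_[p])⁻¹ * 0) := by
      rw [mul_zero, mul_zero, neg_zero]
    have e3 : F (p * v1) v2 (p * w1) w2 0 (-1) 1 0 = F (p * v1) v2 (p * w1) w2 (-0) (-1) 1 0 := by
      rw [neg_zero]
    have q8 : (2 * (κ : ℚ_[p])) * EGf a Φ v1 v2 w1 w2 1 0 0 1 = 0 := by
      rw [e1] at q1
      rw [e2, q4, e3, q5, q3, q6] at q2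
      linear_combination q1 - q2
    have q9 : EGf a Φ v1 v2 w1 w2 1 0 0 1 = 0 := by
      rcases mul_eq_zero.1 q8 with h | h
      · exact absurd h (mul_ne_zero (by norm_num) hκQ)
      · exact h
    rw [q7] at q9
    have q10 : Φ w1 w2 a - Φ v1 v2 a = 0 := PadicInt.ext q9
    exact sub_eq_zero.1 q10
  refine ⟨Φ 1 0 a, fun x y hxy => ?_⟩
  simp only [cp, Pi.zero_apply, zero_add]
  exact step4 1 0 x y (Or.inl one_ne_zero) hxy

end Pool.Agent.Helper28.T7V
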