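import Pool.Agent.Helper28.T7.StV

/-!
# Project TK-V, module F2
-/

set_option autoImplicit false

namespace Pool.Agent.Helper28.T7V

open Pool.Agent.Helper28.TH (OkH ALPlus)

open Pool.Agent.Helper28.T7 Pool.Agent.Helper28.WK Pool.Agent.Helper28.LV Pool.Agent.Helper28.T7
open Pool.Agent.Helper14.CV

private theorem nzB {a h x y : ℤ} (hxy : x ≠ 0 ∨ y ≠ 0) : x + a * h * y ≠ 0 ∨ y ≠ 0 := by
  by_cases hy : y = 0
  · left
    subst hy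
    simpa using hxy
  · exact Or.inr hy

private theorem nzC {a h x y : ℤ} (hxy : x ≠ 0 ∨ y ≠ 0) : x ≠ 0 ∨ a * h * x + y ≠ 0 := by
  by_cases hx : x = 0
  · right
    subst hx
    simpa using hxy
  · exact Or.inl hx

private theorem Nb_congr {R : Type} [AddCommGroup R] (a : ℕ) (h : ℤ) {H H' : ℤ → ℤ → R}
    (e : EqC H H') : EqC (Nb a h H) (Nb a h H') := by
  obtain ⟨k, hk⟩ := e
  refine ⟨∑ j ∈ Finset.range (a + 2), ((-1 : ℤ) ^ j * ((a + 1).choose j : ℤ)) • k,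
    fun x y hxy => ?_⟩
  simp only [Nb]
  rw [← Finset.sum_add_distrib]
  refine Finset.sum_congr rfl fun j _ => ?_
  rw [hk _ _ (nzB hxy), smul_add]

private theorem Nc_congr {R : Type} [AddCommGroup R] (a : ℕ) (c : ℤ) {H H' : ℤ → ℤ → R}
    (e : EqC H H') : EqC (Nc a c H) (Nc a c H') := by
  obtain ⟨k, hk⟩ := e
  refine ⟨∑ j ∈ Finset.range (a + 2), ((-1 : ℤ) ^ j * ((a + 1).choose j : ℤ)) • k,
    fun x y hxy => ?_⟩
  simp only [Nc]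
  rw [← Finset.sum_add_distrib]
  refine Finset.sum_congr rfl fun j _ => ?_
  rw [hk _ _ (nzC hxy), smul_add]

private theorem Nb_add {R : Type} [AddCommGroup R] (a : ℕ) (h : ℤ) (H H' : ℤ → ℤ → R) :
    Nb a h (H + H') = Nb a h H + Nb a h H' := by
  funext x y
  simp only [Nb, Pi.add_apply, smul_add, Finset.sum_add_distrib]

private theorem Nc_add {R : Type} [AddCommGroup R] (a : ℕ) (c : ℤ) (H H' : ℤ → ℤ → R) :
    Nc a c (H + H') = Nc a c H + Nc a c H' := by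
  funext x y
  simp only [Nc, Pi.add_apply, smul_add, Finset.sum_add_distrib]

private theorem Nb_smul {R : Type} [AddCommGroup R] (a : ℕ) (h s : ℤ) (H : ℤ → ℤ → R) :
    Nb a h (s • H) = s • Nb a h H := by
  funext x y
  simp only [Nb, Pi.smul_apply, Finset.smul_sum]
  refine Finset.sum_congr rfl fun j _ => ?_
  rw [smul_comm]

private theorem Nc_smul {R : Type} [AddCommGroup R] (a : ℕ) (c s : ℤ) (H : ℤ → ℤ → R) :
    Nc a c (s • H) = s • Nc a c H := by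
  funext x y
  simp only [Nc, Pi.smul_apply, Finset.smul_sum]
  refine Finset.sum_congr rfl fun j _ => ?_
  rw [smul_comm]

private theorem smul_zero' {R : Type} [AddCommGroup R] (s : ℤ) {H : ℤ → ℤ → R} (h : EqC H 0) :
    EqC (s • H) 0 := by
  have := h.smul s
  rwa [smul_zero] at this

private theorem add_zero' {R : Type} [AddCommGroup R] {H H' : ℤ → ℤ → R} (h : EqC H 0)
    (h' : EqC H' 0) : EqC (H + H') 0 := by
  have := h.add h'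
  rwa [add_zero] at this

private theorem sub_zero' {R : Type} [AddCommGroup R] {H H' : ℤ → ℤ → R} (h : EqC (H + H') 0)
    (h' : EqC H' 0) : EqC H 0 := by
  have := h.sub h'
  rwa [add_sub_cancel_right, sub_zero] at this

private theorem two_dvd_of {p : ℕ} [Fact p.Prime] (hp2 : p ≠ 7) (M : ℕ) {c : ℤ}
    (h : (7 : ℤ) ∣ (p : ℤ) ^ M * c) : (7 : ℤ) ∣ c := by
  have hc : IsCoprime (7 : ℤ) ((p : ℤ) ^ M) := by
    refine IsCoprime.pow_right ?_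
    have := (Nat.coprime_primes Nat.prime_seven (Fact.out : p.Prime)).mpr (Ne.symm hp2)
    exact_mod_cast Nat.isCoprime_iff_coprime.mpr this
  exact hc.dvd_of_dvd_mul_left h

private theorem pow_dvd_of {p : ℕ} [Fact p.Prime] (hp2 : p ≠ 7) (M : ℕ) {c : ℤ}
    (h : (p : ℤ) ^ M ∣ 7 * c) : (p : ℤ) ^ M ∣ c := by
  have hc : IsCoprime ((p : ℤ) ^ M) (7 : ℤ) := by
    refine IsCoprime.pow_left ?_
    have := (Nat.coprime_primes (Fact.out : p.Prime) Nat.prime_seven).mpr hp2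
    exact_mod_cast Nat.isCoprime_iff_coprime.mpr this
  exact hc.dvd_of_dvd_mul_left h

/-- The symbol of level (M, M - 1) composed with `u`. -/
private theorem lev_u {p : ℕ} [Fact p.Prime] (hp2 : p ≠ 7) {ψ : ℤ → ℤ → ℤ_[p]} (M : ℕ) (hM : 3 ≤ M)
    (h : SymH p M (M - 1) (redP M ψ)) : SymH p M (M + 1) (redP M (act (p : ℤ) 0 0 1 ψ)) := by
  have hp : (p : ℤ) ≠ 0 := by exact_mod_cast (Fact.out : p.Prime).ne_zero
  have e0 : redP M (act (p : ℤ) 0 0 1 ψ) = act (p : ℤ) 0 0 1 (redP M ψ) := rfl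
  rw [e0]
  refine SymH.act h (by simpa using hp) fun α β γ δ hd hb hc => ?_
  obtain ⟨c, rfl⟩ := hc
  refine ⟨α, p * β, (p : ℤ) ^ M * c, δ, ?_, Dvd.dvd.mul_left hb _,
    Dvd.dvd.mul_right (pow_dvd_pow _ (by omega)) _, by ring, by ring, by ring, by ring⟩
  rcases hd with ⟨h1, h2⟩ | ⟨h1, h2, h3, h4⟩
  · exact Or.inl ⟨by linear_combination h1, Dvd.dvd.mul_left (two_dvd_of hp2 _ h2) _⟩
  · exact Or.inr ⟨by linear_combination h1, h2, Dvd.dvd.mul_left (two_dvd_of hp2 _ h3) _, h4⟩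

/-- The symbol of level (M, M - 1) composed with `W`. -/
private theorem lev_W {p : ℕ} [Fact p.Prime] (hp2 : p ≠ 7) {ψ : ℤ → ℤ → ℤ_[p]} (M : ℕ) (hM : 3 ≤ M)
    (h : SymH p M (M - 1) (redP M ψ)) : SymH p M (M + 1) (redP M (act 0 (-1) 7 0 ψ)) := by
  have e0 : redP M (act 0 (-1) 7 0 ψ) = act 0 (-1) 7 0 (redP M ψ) := rfl
  rw [e0]
  refine SymH.act h (by norm_num) fun α β γ δ hd hb hc => ?_
  have h2c : (7 : ℤ) ∣ γ := by
    rcases hd with ⟨_, h2⟩ | ⟨_, _, h3, _⟩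
    · exact h2
    · exact h3
  obtain ⟨c, rfl⟩ := h2c
  refine ⟨δ, -c, -(7 * β), α, ?_, ?_, ?_, by ring, by ring, by ring, by ring⟩
  · rcases hd with ⟨h1, h2⟩ | ⟨h1, h2, h3, h4⟩
    · exact Or.inl ⟨by linear_combination h1, (dvd_neg).mpr (Dvd.intro _ rfl)⟩
    · exact Or.inr ⟨by linear_combination h1, h4, (dvd_neg).mpr (Dvd.intro _ rfl), h2⟩
  · exact (dvd_neg).mpr (pow_dvd_of hp2 _ ((pow_dvd_pow _ (by omega)).trans hc))
  · exact (dvd_neg).mpr (Dvd.dvd.mul_left ((pow_dvd_pow _ (by omega)).trans hb) _)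

private theorem Nb_W {R : Type} [AddCommGroup R] (a : ℕ) (h : ℤ) (H : ℤ → ℤ → R) :
    Nb a h (act 0 (-1) 7 0 H) = act 0 (-1) 7 0 (Nc a (-(7 * h)) H) := by
  funext x y
  simp only [Nb, Nc, act]
  refine Finset.sum_congr rfl fun j _ => ?_
  congr 2 <;> ring

private theorem Nc_W {R : Type} [AddCommGroup R] (a : ℕ) (c : ℤ) (H : ℤ → ℤ → R) :
    Nc a (7 * c) (act 0 (-1) 7 0 H) = act 0 (-1) 7 0 (Nb a (-c) H) := by
  funext x y
  simp only [Nb, Nc, act]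
  refine Finset.sum_congr rfl fun j _ => ?_
  congr 2 <;> ring

private theorem act_zero {R : Type} [AddCommGroup R] {H : ℤ → ℤ → R} (h : EqC H 0)
    {a b c d : ℤ} (hd : a * d - b * c ≠ 0) : EqC (act a b c d H) 0 := by
  have := h.act hd
  exact this

/-- a polynomial with infinitely many roots -/
private theorem van {p : ℕ} [Fact p.Prime] (a : ℕ) (b : ℕ → ℚ_[p]) (t : ℕ → ℚ_[p])
    (ht : Function.Injective t)
    (h : ∀ k, ∑ j ∈ Finset.range (a + 1), b j * t k ^ j = 0) : ∀ j, j ≤ a → b j = 0 := by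
  have h1 : (∑ j ∈ Finset.range (a + 1), Polynomial.C (b j) * Polynomial.X ^ j) = 0 := by
    refine Polynomial.eq_zero_of_infinite_isRoot _ ?_
    refine Set.Infinite.mono ?_ (Set.infinite_range_of_injective ht)
    rintro _ ⟨k, rfl⟩
    simp only [Polynomial.IsRoot, Set.mem_ofPred_eq]
    rw [Polynomial.eval_finsetSum]
    simpa using h k
  intro j hj
  have h2 := congrArg (fun q => Polynomial.coeff q j) h1
  simp only [Polynomial.finsetSum_coeff, Polynomial.coeff_C_mul_X_pow, Polynomial.coeff_zero] at h2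
  rw [Finset.sum_ite_eq, if_pos (Finset.mem_range.mpr (by omega))] at h2
  exact h2

private theorem one_ne {p : ℕ} [hp : Fact p.Prime] (N : ℕ) (x c : ℤ) (hx : (p : ℤ) ^ (N + 1) ∣ x) :
    (1 : ℤ) + c * x ≠ 0 := by
  intro h
  have h1 : (p : ℤ) ∣ x := Dvd.dvd.trans (dvd_pow_self _ (Nat.succ_ne_zero N)) hx
  have h2 : (p : ℤ) ∣ 1 := by
    have h3 : (1 : ℤ) = -(c * x) := by linarith
    rw [h3]
    exact (dvd_neg).mpr (Dvd.dvd.mul_left h1 c)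
  have h4 := Int.isUnit_iff.mp (isUnit_of_dvd_one h2)
  have h5 := hp.out.two_le
  omega

/-- Uniqueness, with an even lower left entry. -/
private theorem RgQ (p : ℕ) (hp : Fact p.Prime) (a N : ℕ)
    (F : ℚ_[p] → ℚ_[p] → ℚ_[p] → ℚ_[p] → ℚ_[p]) (hF : Rg a F)
    (h0 : ∀ α β γ δ : ℤ, α * δ - β * γ = 1 → (p : ℤ) ^ N ∣ α - 1 → (p : ℤ) ^ N ∣ β →
      (p : ℤ) ^ N ∣ γ → (p : ℤ) ^ N ∣ δ - 1 → (7 : ℤ) ∣ γ → F α β γ δ = 0) :
    ∀ α β γ δ : ℚ_[p], F α β γ δ = 0 := by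
  obtain ⟨P, hP⟩ := hF
  have hp0 : ((p : ℤ) : ℚ_[p]) ≠ 0 := by
    exact_mod_cast hp.out.ne_zero
  have key : ∀ x c : ℤ, (p : ℤ) ^ (N + 1) ∣ x → (p : ℤ) ^ (N + 1) ∣ c → (7 : ℤ) ∣ c →
      ∑ j ∈ Finset.range (a + 1), (∑ i ∈ Finset.range (a + 1), P i j * (x : ℚ_[p]) ^ i) *
        ((c : ℚ_[p]) / (1 + c * x)) ^ j = 0 := by
    intro x c hx hc hc2
    have hN : (p : ℤ) ^ N ∣ (p : ℤ) ^ (N + 1) := pow_dvd_pow _ (Nat.le_succ N)
    have h1 := h0 1 x c (1 + c * x) (by ring) (by simp) (hN.trans hx) (hN.trans hc)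
      (by simpa using Dvd.dvd.mul_left (hN.trans hx) c) hc2
    have hne : (1 : ℚ_[p]) + c * x ≠ 0 := by
      exact_mod_cast one_ne N x c hx
    rw [hP] at h1
    have h2 : (1 + (c : ℚ_[p]) * x) ^ a * ∑ j ∈ Finset.range (a + 1),
        (∑ i ∈ Finset.range (a + 1), P i j * (x : ℚ_[p]) ^ i) *
          ((c : ℚ_[p]) / (1 + c * x)) ^ j = 0 := by
      rw [← h1, Finset.mul_sum, Finset.sum_comm]
      refine Finset.sum_congr rfl fun j hj => ?_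
      rw [Finset.sum_mul, Finset.mul_sum]
      refine Finset.sum_congr rfl fun i _ => ?_
      have hj' : j ≤ a := Nat.lt_succ_iff.mp (Finset.mem_range.mp hj)
      obtain ⟨m, rfl⟩ := Nat.exists_eq_add_of_le hj'
      rw [Nat.add_sub_cancel_left]
      push_cast
      rw [one_pow, pow_add, div_pow]
      field_simp
    rcases mul_eq_zero.mp h2 with h3 | h3
    · exact absurd h3 (pow_ne_zero a hne)
    · exact h3
  have hb : ∀ x : ℤ, (p : ℤ) ^ (N + 1) ∣ x → ∀ j, j ≤ a →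
      ∑ i ∈ Finset.range (a + 1), P i j * (x : ℚ_[p]) ^ i = 0 := by
    intro x hx
    refine van a (fun j => ∑ i ∈ Finset.range (a + 1), P i j * (x : ℚ_[p]) ^ i)
      (fun k : ℕ => ((7 * (p : ℤ) ^ (N + 1) * k : ℤ) : ℚ_[p]) /
        (1 + ((7 * (p : ℤ) ^ (N + 1) * k : ℤ) : ℚ_[p]) * x)) ?_ ?_
    · intro k l hkl
      have h1 : (1 : ℚ_[p]) + ((7 * (p : ℤ) ^ (N + 1) * k : ℤ) : ℚ_[p]) * x ≠ 0 := by
        exact_mod_cast one_ne N x _ hx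
      have h2 : (1 : ℚ_[p]) + ((7 * (p : ℤ) ^ (N + 1) * l : ℤ) : ℚ_[p]) * x ≠ 0 := by
        exact_mod_cast one_ne N x _ hx
      simp only at hkl
      rw [div_eq_div_iff h1 h2] at hkl
      have h3 : ((7 * (p : ℤ) ^ (N + 1) * k : ℤ) : ℚ_[p]) = ((7 * (p : ℤ) ^ (N + 1) * l : ℤ) : ℚ_[p]) := by
        linear_combination hkl
      have h4 : (7 * (p : ℤ) ^ (N + 1) * k : ℤ) = (7 * (p : ℤ) ^ (N + 1) * l : ℤ) := by exact_mod_cast h3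
      have h5 : (7 * (p : ℤ) ^ (N + 1)) ≠ 0 :=
        mul_ne_zero (by norm_num) (pow_ne_zero _ (by exact_mod_cast hp.out.ne_zero))
      exact_mod_cast mul_left_cancel₀ h5 h4
    · intro k
      exact key x _ hx ⟨7 * k, by ring⟩ ⟨(p : ℤ) ^ (N + 1) * k, by ring⟩
  have hc : ∀ j, j ≤ a → ∀ i, i ≤ a → P i j = 0 := by
    intro j hj
    refine van a (fun i => P i j) (fun k : ℕ => (((p : ℤ) ^ (N + 1) * k : ℤ) : ℚ_[p])) ?_ ?_
    · intro k l hkl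
      simp only at hkl
      have h4 : ((p : ℤ) ^ (N + 1) * k : ℤ) = ((p : ℤ) ^ (N + 1) * l : ℤ) := by exact_mod_cast hkl
      have h5 : ((p : ℤ) ^ (N + 1)) ≠ 0 := pow_ne_zero _ (by exact_mod_cast hp.out.ne_zero)
      exact_mod_cast mul_left_cancel₀ h5 h4
    · intro k
      exact hb _ (Dvd.intro _ rfl) j hj
  intro α β γ δ
  rw [hP]
  refine Finset.sum_eq_zero fun i hi => Finset.sum_eq_zero fun j hj => ?_
  rw [hc j (Nat.lt_succ_iff.mp (Finset.mem_range.mp hj)) i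
    (Nat.lt_succ_iff.mp (Finset.mem_range.mp hi)), zero_mul]

private theorem HTy_mul {α β γ δ x y z t : ℤ} (h1 : α * δ - β * γ = 1) (h2 : (7 : ℤ) ∣ γ)
    (h : HTy x y z t) :
    HTy (α * x + β * z) (α * y + β * t) (γ * x + δ * z) (γ * y + δ * t) := by
  rcases h with ⟨k1, k2⟩ | ⟨k1, k2, k3, k4⟩
  · refine Or.inl ⟨?_, dvd_add (Dvd.dvd.mul_right h2 _) (Dvd.dvd.mul_left k2 _)⟩
    linear_combination (α * δ - β * γ) * k1 + h1
  · refine Or.inr ⟨?_, dvd_add (Dvd.dvd.mul_left k2 _) (Dvd.dvd.mul_left k3 _),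
      dvd_add (Dvd.dvd.mul_left k2 _) (Dvd.dvd.mul_left k3 _),
      dvd_add (Dvd.dvd.mul_right h2 _) (Dvd.dvd.mul_left k4 _)⟩
    linear_combination (α * δ - β * γ) * k1 + 7 * h1

/-- Equivariance. -/
private theorem equivG (hT : RgT) (p : ℕ) [hp : Fact p.Prime] (a : ℕ)
    (H : ℤ → ℤ → ℤ_[p]) (Q : ℤ → ℤ → ℤ → ℤ → Prop)
    (hQ1 : ∀ α β γ δ : ℤ, (p : ℤ) ∣ β → (p : ℤ) ∣ γ → Q α β γ δ)
    (hQ2 : ∀ α β γ δ x y z t : ℤ, Q α β γ δ → Q x y z t →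
      Q (α * x + β * z) (α * y + β * t) (γ * x + δ * z) (γ * y + δ * t))
    (F : ℤ → ℤ → ℤ → ℤ → ℚ_[p] → ℚ_[p] → ℚ_[p] → ℚ_[p] → ℚ_[p])
    (hF : ∀ v1 v2 w1 w2 : ℤ, (v1 ≠ 0 ∨ v2 ≠ 0) → (w1 ≠ 0 ∨ w2 ≠ 0) →
      Rg a (F v1 v2 w1 w2) ∧ ∀ α β γ δ : ℤ, HTy α β γ δ → Q α β γ δ →
      (((((α * δ - β * γ) ^ a : ℤ) : ℤ_[p]) *
        (H (α * w1 + β * w2) (γ * w1 + δ * w2) - H (α * v1 + β * v2) (γ * v1 + δ * v2)) : ℤ_[p]) :
        ℚ_[p]) = F v1 v2 w1 w2 α β γ δ)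
    (v1 v2 w1 w2 : ℤ) (hv : v1 ≠ 0 ∨ v2 ≠ 0) (hw : w1 ≠ 0 ∨ w2 ≠ 0) (x y z t : ℤ)
    (hd : HTy x y z t) (hQ : Q x y z t) (α β γ δ : ℚ_[p]) :
    ((x * t - y * z : ℤ) : ℚ_[p]) ^ a *
      F (x * v1 + y * v2) (z * v1 + t * v2) (x * w1 + y * w2) (z * w1 + t * w2) α β γ δ =
      F v1 v2 w1 w2 (α * x + β * z) (α * y + β * t) (γ * x + δ * z) (γ * y + δ * t) := by
  have hd0 : x * t - y * z ≠ 0 := hd.det_ne
  obtain ⟨r1, f1⟩ := hF _ _ _ _ (ne_zero_of_det hd0 hv) (ne_zero_of_det hd0 hw)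
  obtain ⟨r2, f2⟩ := hF _ _ _ _ hv hw
  have r3 := (hT p hp a _ r2).1 (x : ℚ_[p]) y z t
  have r4 := (hT p hp a _ r1).2.2.2.1 _ (((x * t - y * z : ℤ) : ℚ_[p]) ^ a) (-1) r3
  have key := RgQ p hp a 1 _ r4 (fun α β γ δ h1 _ h3 h4 _ h5 => ?_) α β γ δ
  · linear_combination key
  · rw [pow_one] at h3 h4
    have q1 : Q α β γ δ := hQ1 _ _ _ _ h3 h4
    have g1 := f1 α β γ δ (Or.inl ⟨h1, h5⟩) q1
    have g2 := f2 (α * x + β * z) (α * y + β * t) (γ * x + δ * z) (γ * y + δ * t)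
      (HTy_mul h1 h5 hd) (hQ2 _ _ _ _ _ _ _ _ q1 hQ)
    have e1 : (α * x + β * z) * w1 + (α * y + β * t) * w2 =
      α * (x * w1 + y * w2) + β * (z * w1 + t * w2) := by ring
    have e2 : (γ * x + δ * z) * w1 + (γ * y + δ * t) * w2 =
      γ * (x * w1 + y * w2) + δ * (z * w1 + t * w2) := by ring
    have e3 : (α * x + β * z) * v1 + (α * y + β * t) * v2 =
      α * (x * v1 + y * v2) + β * (z * v1 + t * v2) := by ring
    have e4 : (γ * x + δ * z) * v1 + (γ * y + δ * t) * v2 =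
      γ * (x * v1 + y * v2) + δ * (z * v1 + t * v2) := by ring
    have e5 : (α * x + β * z) * (γ * y + δ * t) - (α * y + β * t) * (γ * x + δ * z) =
      x * t - y * z := by linear_combination (x * t - y * z) * h1
    rw [e1, e2, e3, e4, e5] at g2
    rw [h1] at g1
    push_cast at g1 g2 ⊢
    rw [← g1, ← g2]
    ring

/-- Scaling of the cycles. -/
private theorem scaleG (hT : RgT) (p : ℕ) [hp : Fact p.Prime] (a : ℕ)
    (H : ℤ → ℤ → ℤ_[p]) (hH : Homog H) (Q : ℤ → ℤ → ℤ → ℤ → Prop)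
    (hQ1 : ∀ α β γ δ : ℤ, (p : ℤ) ∣ β → (p : ℤ) ∣ γ → Q α β γ δ)
    (F : ℤ → ℤ → ℤ → ℤ → ℚ_[p] → ℚ_[p] → ℚ_[p] → ℚ_[p] → ℚ_[p])
    (hF : ∀ v1 v2 w1 w2 : ℤ, (v1 ≠ 0 ∨ v2 ≠ 0) → (w1 ≠ 0 ∨ w2 ≠ 0) →
      Rg a (F v1 v2 w1 w2) ∧ ∀ α β γ δ : ℤ, HTy α β γ δ → Q α β γ δ →
      (((((α * δ - β * γ) ^ a : ℤ) : ℤ_[p]) *
        (H (α * w1 + β * w2) (γ * w1 + δ * w2) - H (α * v1 + β * v2) (γ * v1 + δ * v2)) : ℤ_[p]) :
        ℚ_[p]) = F v1 v2 w1 w2 α β γ δ)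
    (k v1 v2 w1 w2 : ℤ) (hk : k ≠ 0) (hv : v1 ≠ 0 ∨ v2 ≠ 0) (hw : w1 ≠ 0 ∨ w2 ≠ 0)
    (α β γ δ : ℚ_[p]) :
    F (k * v1) (k * v2) (k * w1) (k * w2) α β γ δ = F v1 v2 w1 w2 α β γ δ := by
  have nz : ∀ {x y : ℤ}, (x ≠ 0 ∨ y ≠ 0) → (k * x ≠ 0 ∨ k * y ≠ 0) := by
    rintro x y (h | h)
    · exact Or.inl (mul_ne_zero hk h)
    · exact Or.inr (mul_ne_zero hk h)
  obtain ⟨r1, f1⟩ := hF _ _ _ _ (nz hv) (nz hw)
  obtain ⟨r2, f2⟩ := hF _ _ _ _ hv hw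
  have r4 := (hT p hp a _ r1).2.2.2.1 _ 1 (-1) r2
  have key := RgQ p hp a 1 _ r4 (fun α β γ δ h1 _ h3 h4 _ h5 => ?_) α β γ δ
  · linear_combination key
  · rw [pow_one] at h3 h4
    have q1 : Q α β γ δ := hQ1 _ _ _ _ h3 h4
    have hd0 : α * δ - β * γ ≠ 0 := by rw [h1]; exact one_ne_zero
    have g1 := f1 α β γ δ (Or.inl ⟨h1, h5⟩) q1
    have g2 := f2 α β γ δ (Or.inl ⟨h1, h5⟩) q1
    have e1 : α * (k * w1) + β * (k * w2) = k * (α * w1 + β * w2) := by ring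
    have e2 : γ * (k * w1) + δ * (k * w2) = k * (γ * w1 + δ * w2) := by ring
    have e3 : α * (k * v1) + β * (k * v2) = k * (α * v1 + β * v2) := by ring
    have e4 : γ * (k * v1) + δ * (k * v2) = k * (γ * v1 + δ * v2) := by ring
    rw [e1, e2, e3, e4, hH k _ _ hk (ne_zero_of_det hd0 hw), hH k _ _ hk (ne_zero_of_det hd0 hv)] at g1
    rw [← g1, ← g2]
    ring

/-- The function `det(g)^(-a) F_{gD}(adj g)`. -/
private noncomputable def mm {p : ℕ} [Fact p.Prime] (a : ℕ)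
    (F : ℤ → ℤ → ℤ → ℤ → ℚ_[p] → ℚ_[p] → ℚ_[p] → ℚ_[p] → ℚ_[p]) (v1 v2 w1 w2 : ℤ)
    (α β γ δ : ℤ) : ℚ_[p] :=
  if α * δ - β * γ = 0 then 0 else
  (((α * δ - β * γ : ℤ) : ℚ_[p])⁻¹) ^ a *
  F (α * v1 + β * v2) (γ * v1 + δ * v2) (α * w1 + β * w2) (γ * w1 + δ * w2)
    (δ : ℚ_[p]) (-(β : ℚ_[p])) (-(γ : ℚ_[p])) (α : ℚ_[p])

private theorem mm_of {p : ℕ} [Fact p.Prime] (a : ℕ)
    (F : ℤ → ℤ → ℤ → ℤ → ℚ_[p] → ℚ_[p] → ℚ_[p] → ℚ_[p] → ℚ_[p]) (v1 v2 w1 w2 : ℤ)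
    (α β γ δ e : ℤ) (h : α * δ - β * γ = e) (he : e ≠ 0) :
    mm a F v1 v2 w1 w2 α β γ δ = ((e : ℚ_[p])⁻¹) ^ a *
      F (α * v1 + β * v2) (γ * v1 + δ * v2) (α * w1 + β * w2) (γ * w1 + δ * w2)
        (δ : ℚ_[p]) (-(β : ℚ_[p])) (-(γ : ℚ_[p])) (α : ℚ_[p]) := by
  unfold mm
  rw [h, if_neg he]

private theorem mm_inv (hT : RgT) {p : ℕ} [hp : Fact p.Prime] (a : ℕ) (Q : ℤ → ℤ → ℤ → ℤ → Prop)
    (F : ℤ → ℤ → ℤ → ℤ → ℚ_[p] → ℚ_[p] → ℚ_[p] → ℚ_[p] → ℚ_[p])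
    (hR : ∀ v1 v2 w1 w2 : ℤ, (v1 ≠ 0 ∨ v2 ≠ 0) → (w1 ≠ 0 ∨ w2 ≠ 0) → Rg a (F v1 v2 w1 w2))
    (hE : ∀ v1 v2 w1 w2 : ℤ, (v1 ≠ 0 ∨ v2 ≠ 0) → (w1 ≠ 0 ∨ w2 ≠ 0) → ∀ x y z t : ℤ,
      HTy x y z t → Q x y z t → ∀ α β γ δ : ℚ_[p],
      ((x * t - y * z : ℤ) : ℚ_[p]) ^ a *
        F (x * v1 + y * v2) (z * v1 + t * v2) (x * w1 + y * w2) (z * w1 + t * w2) α β γ δ =
      F v1 v2 w1 w2 (α * x + β * z) (α * y + β * t) (γ * x + δ * z) (γ * y + δ * t))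
    (v1 v2 w1 w2 : ℤ) (hv : v1 ≠ 0 ∨ v2 ≠ 0) (hw : w1 ≠ 0 ∨ w2 ≠ 0)
    (x y z t α β γ δ : ℤ) (h1 : HTy x y z t) (h2 : HTy α β γ δ) (hQ : Q x y z t) :
    mm a F v1 v2 w1 w2 (x * α + y * γ) (x * β + y * δ) (z * α + t * γ) (z * β + t * δ) =
      mm a F v1 v2 w1 w2 α β γ δ := by
  have hx0 : x * t - y * z ≠ 0 := h1.det_ne
  have hg0 : α * δ - β * γ ≠ 0 := h2.det_ne
  have hxq : ((x * t - y * z : ℤ) : ℚ_[p]) ≠ 0 := by exact_mod_cast hx0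
  have h := hE _ _ _ _ (ne_zero_of_det hg0 hv) (ne_zero_of_det hg0 hw) x y z t h1 hQ
    (((z * β + t * δ : ℤ)) : ℚ_[p]) (-((x * β + y * δ : ℤ) : ℚ_[p]))
    (-((z * α + t * γ : ℤ) : ℚ_[p])) ((x * α + y * γ : ℤ) : ℚ_[p])
  have hs := (hT p hp a _ (hR _ _ _ _ (ne_zero_of_det hg0 hv) (ne_zero_of_det hg0 hw))).2.2.2.2
    ((x * t - y * z : ℤ) : ℚ_[p]) ((x * t - y * z : ℤ) : ℚ_[p])
    (δ : ℚ_[p]) (-(β : ℚ_[p])) (-(γ : ℚ_[p])) (α : ℚ_[p])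
  rw [mm_of a F v1 v2 w1 w2 _ _ _ _ ((x * t - y * z) * (α * δ - β * γ)) (by ring)
    (mul_ne_zero hx0 hg0), mm_of a F v1 v2 w1 w2 α β γ δ _ rfl hg0]
  have e1 : (x * α + y * γ) * v1 + (x * β + y * δ) * v2 =
    x * (α * v1 + β * v2) + y * (γ * v1 + δ * v2) := by ring
  have e2 : (z * α + t * γ) * v1 + (z * β + t * δ) * v2 =
    z * (α * v1 + β * v2) + t * (γ * v1 + δ * v2) := by ring
  have e3 : (x * α + y * γ) * w1 + (x * β + y * δ) * w2 =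
    x * (α * w1 + β * w2) + y * (γ * w1 + δ * w2) := by ring
  have e4 : (z * α + t * γ) * w1 + (z * β + t * δ) * w2 =
    z * (α * w1 + β * w2) + t * (γ * w1 + δ * w2) := by ring
  have f1 : ((z * β + t * δ : ℤ) : ℚ_[p]) * (x : ℚ_[p]) + (-((x * β + y * δ : ℤ) : ℚ_[p])) * (z : ℚ_[p]) =
      ((x * t - y * z : ℤ) : ℚ_[p]) * (δ : ℚ_[p]) := by
    push_cast
    ring
  have f2 : ((z * β + t * δ : ℤ) : ℚ_[p]) * (y : ℚ_[p]) + (-((x * β + y * δ : ℤ) : ℚ_[p])) * (t : ℚ_[p]) =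
      ((x * t - y * z : ℤ) : ℚ_[p]) * (-(β : ℚ_[p])) := by
    push_cast
    ring
  have f3 : (-((z * α + t * γ : ℤ) : ℚ_[p])) * (x : ℚ_[p]) + ((x * α + y * γ : ℤ) : ℚ_[p]) * (z : ℚ_[p]) =
      ((x * t - y * z : ℤ) : ℚ_[p]) * (-(γ : ℚ_[p])) := by
    push_cast
    ring
  have f4 : (-((z * α + t * γ : ℤ) : ℚ_[p])) * (y : ℚ_[p]) + ((x * α + y * γ : ℤ) : ℚ_[p]) * (t : ℚ_[p]) =
      ((x * t - y * z : ℤ) : ℚ_[p]) * (α : ℚ_[p]) := by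
    push_cast
    ring
  rw [f1, f2, f3, f4, hs] at h
  have h' : F (x * (α * v1 + β * v2) + y * (γ * v1 + δ * v2)) (z * (α * v1 + β * v2) + t * (γ * v1 + δ * v2))
      (x * (α * w1 + β * w2) + y * (γ * w1 + δ * w2)) (z * (α * w1 + β * w2) + t * (γ * w1 + δ * w2))
      (((z * β + t * δ : ℤ)) : ℚ_[p]) (-((x * β + y * δ : ℤ) : ℚ_[p]))
      (-((z * α + t * γ : ℤ) : ℚ_[p])) ((x * α + y * γ : ℤ) : ℚ_[p]) =
      ((x * t - y * z : ℤ) : ℚ_[p]) ^ a * F (α * v1 + β * v2) (γ * v1 + δ * v2) (α * w1 + β * w2)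
        (γ * w1 + δ * w2) (δ : ℚ_[p]) (-(β : ℚ_[p])) (-(γ : ℚ_[p])) (α : ℚ_[p]) := by
    apply mul_left_cancel₀ (pow_ne_zero a hxq)
    rw [h, mul_pow]
    ring
  rw [e1, e2, e3, e4, h', Int.cast_mul, mul_inv, mul_pow]
  have hc : ((((x * t - y * z : ℤ) : ℚ_[p]))⁻¹) ^ a * ((x * t - y * z : ℤ) : ℚ_[p]) ^ a = 1 := by
    rw [← mul_pow, inv_mul_cancel₀ hxq, one_pow]
  linear_combination ((((α * δ - β * γ : ℤ) : ℚ_[p]))⁻¹) ^ a * F (α * v1 + β * v2) (γ * v1 + δ * v2)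
    (α * w1 + β * w2) (γ * w1 + δ * w2) (δ : ℚ_[p]) (-(β : ℚ_[p])) (-(γ : ℚ_[p])) (α : ℚ_[p]) * hc

private theorem mm_scale (hT : RgT) {p : ℕ} [hp : Fact p.Prime] (a : ℕ)
    (F : ℤ → ℤ → ℤ → ℤ → ℚ_[p] → ℚ_[p] → ℚ_[p] → ℚ_[p] → ℚ_[p])
    (hR : ∀ v1 v2 w1 w2 : ℤ, (v1 ≠ 0 ∨ v2 ≠ 0) → (w1 ≠ 0 ∨ w2 ≠ 0) → Rg a (F v1 v2 w1 w2))
    (hS : ∀ k v1 v2 w1 w2 : ℤ, k ≠ 0 → (v1 ≠ 0 ∨ v2 ≠ 0) → (w1 ≠ 0 ∨ w2 ≠ 0) →
      ∀ α β γ δ : ℚ_[p], F (k * v1) (k * v2) (k * w1) (k * w2) α β γ δ = F v1 v2 w1 w2 α β γ δ)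
    (v1 v2 w1 w2 : ℤ) (hv : v1 ≠ 0 ∨ v2 ≠ 0) (hw : w1 ≠ 0 ∨ w2 ≠ 0)
    (k α β γ δ : ℤ) (hk : k ≠ 0) :
    mm a F v1 v2 w1 w2 (k * α) (k * β) (k * γ) (k * δ) = mm a F v1 v2 w1 w2 α β γ δ := by
  by_cases hg : α * δ - β * γ = 0
  · have hg' : k * α * (k * δ) - k * β * (k * γ) = 0 := by linear_combination k * k * hg
    unfold mm
    rw [if_pos hg, if_pos hg']
  · have hkq : (k : ℚ_[p]) ≠ 0 := by exact_mod_cast hk
    rw [mm_of a F v1 v2 w1 w2 _ _ _ _ (k * k * (α * δ - β * γ)) (by ring)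
      (mul_ne_zero (mul_ne_zero hk hk) hg), mm_of a F v1 v2 w1 w2 α β γ δ _ rfl hg]
    have hs := (hT p hp a _ (hR _ _ _ _ (ne_zero_of_det hg hv) (ne_zero_of_det hg hw))).2.2.2.2
      (k : ℚ_[p]) (k : ℚ_[p]) (δ : ℚ_[p]) (-(β : ℚ_[p])) (-(γ : ℚ_[p])) (α : ℚ_[p])
    have e1 : k * α * v1 + k * β * v2 = k * (α * v1 + β * v2) := by ring
    have e2 : k * γ * v1 + k * δ * v2 = k * (γ * v1 + δ * v2) := by ring
    have e3 : k * α * w1 + k * β * w2 = k * (α * w1 + β * w2) := by ring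
    have e4 : k * γ * w1 + k * δ * w2 = k * (γ * w1 + δ * w2) := by ring
    have f1 : ((k * δ : ℤ) : ℚ_[p]) = (k : ℚ_[p]) * (δ : ℚ_[p]) := by push_cast; ring
    have f2 : (-((k * β : ℤ) : ℚ_[p])) = (k : ℚ_[p]) * (-(β : ℚ_[p])) := by push_cast; ring
    have f3 : (-((k * γ : ℤ) : ℚ_[p])) = (k : ℚ_[p]) * (-(γ : ℚ_[p])) := by push_cast; ring
    have f4 : ((k * α : ℤ) : ℚ_[p]) = (k : ℚ_[p]) * (α : ℚ_[p]) := by push_cast; ring
    rw [e1, e2, e3, e4, hS k _ _ _ _ hk (ne_zero_of_det hg hv) (ne_zero_of_det hg hw), f1, f2, f3, f4,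
      hs, Int.cast_mul, mul_inv, mul_pow, Int.cast_mul]
    have hc : (((k : ℚ_[p]) * (k : ℚ_[p]))⁻¹) ^ a * ((k : ℚ_[p]) * (k : ℚ_[p])) ^ a = 1 := by
      rw [← mul_pow, inv_mul_cancel₀ (mul_ne_zero hkq hkq), one_pow]
    linear_combination ((((α * δ - β * γ : ℤ) : ℚ_[p]))⁻¹) ^ a * F (α * v1 + β * v2) (γ * v1 + δ * v2)
      (α * w1 + β * w2) (γ * w1 + δ * w2) (δ : ℚ_[p]) (-(β : ℚ_[p])) (-(γ : ℚ_[p])) (α : ℚ_[p]) * hc

private theorem HTy_n {i : ℤ} {α β γ δ : ℤ} (h : HTy α β γ δ) :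
    HTy (α + i * γ) (β + i * δ) γ δ := by
  rcases h with ⟨k1, k2⟩ | ⟨k1, k2, k3, k4⟩
  · exact Or.inl ⟨by linear_combination k1, k2⟩
  · exact Or.inr ⟨by linear_combination k1, dvd_add k2 (Dvd.dvd.mul_left k3 _), k3, k4⟩

private theorem HTy_n' {i : ℤ} {α β γ δ : ℤ} (h : HTy α β γ δ) :
    HTy α β (7 * i * α + γ) (7 * i * β + δ) := by
  rcases h with ⟨k1, k2⟩ | ⟨k1, k2, k3, k4⟩
  · exact Or.inl ⟨by linear_combination k1, dvd_add ⟨i * α, by ring⟩ k2⟩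
  · exact Or.inr ⟨by linear_combination k1, k2, dvd_add ⟨i * α, by ring⟩ k3, dvd_add ⟨i * β, by ring⟩ k4⟩

theorem hF2 : ZF2 := by
  intro hMC hT _ hEG hM2B hAV hW2 p hp κ a Φ ψ hp2 hκ hΦ hψ hlev hG hNb hNc
  have hp0 : (p : ℤ) ≠ 0 := by exact_mod_cast (Fact.out : p.Prime).ne_zero
  obtain ⟨k, hk⟩ := hG
  obtain ⟨w2b, w2c⟩ := hW2 p hp a 0 Φ hΦ
  have hθE : EqC (act (p : ℤ) 0 0 1 ψ) (ψ + κ • cp Φ a) := by
    refine ⟨k, fun x y hxy => ?_⟩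
    have := hk x y hxy
    simp only [Pi.sub_apply, Pi.add_apply] at this ⊢
    linear_combination this
  -- `F'` for `θ`
  have h1 : ∀ v1 v2 w1 w2 : ℤ, ∃ F : ℚ_[p] → ℚ_[p] → ℚ_[p] → ℚ_[p] → ℚ_[p],
      (v1 ≠ 0 ∨ v2 ≠ 0) → (w1 ≠ 0 ∨ w2 ≠ 0) → Rg a F ∧ ∀ α β γ δ : ℤ,
      HTy α β γ δ → (p : ℤ) ∣ γ →
      (((((α * δ - β * γ) ^ a : ℤ) : ℤ_[p]) *
        (act (p : ℤ) 0 0 1 ψ (α * w1 + β * w2) (γ * w1 + δ * w2) -
        act (p : ℤ) 0 0 1 ψ (α * v1 + β * v2) (γ * v1 + δ * v2)) : ℤ_[p]) :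
        ℚ_[p]) = F α β γ δ := by
    intro v1 v2 w1 w2
    by_cases hv : v1 ≠ 0 ∨ v2 ≠ 0
    · by_cases hw : w1 ≠ 0 ∨ w2 ≠ 0
      · obtain ⟨F, hF1, hF2⟩ := hMC p hp a 1 (act (p : ℤ) 0 0 1 ψ) hp2 le_rfl
          (hψ.act (by simpa using hp0)) (fun M hM => lev_u hp2 M hM (hlev M hM))
          (fun h => (Nb_congr a h hθE).trans (hNb h))
          (fun c hc => (Nc_congr a c hθE).trans (by
            rw [Nc_add, Nc_smul]
            exact add_zero' (hNc c ((Dvd.intro _ rfl).trans hc))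
              (smul_zero' κ (w2c c (by simpa using hc)))))
          v1 v2 w1 w2 hv hw
        exact ⟨F, fun _ _ => ⟨hF1, fun α β γ δ h1 h2 => hF2 α β γ δ h1 (by simpa using h2)⟩⟩
      · exact ⟨0, fun _ h => absurd h hw⟩
    · exact ⟨0, fun h _ => absurd h hv⟩
  choose F' hF' using h1
  -- `F` for `ψ`
  have h2 : ∀ v1 v2 w1 w2 : ℤ, ∃ F : ℚ_[p] → ℚ_[p] → ℚ_[p] → ℚ_[p] → ℚ_[p],
      (v1 ≠ 0 ∨ v2 ≠ 0) → (w1 ≠ 0 ∨ w2 ≠ 0) → Rg a F ∧ ∀ α β γ δ : ℤ,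
      HTy α β γ δ → (p : ℤ) ∣ β →
      (((((α * δ - β * γ) ^ a : ℤ) : ℤ_[p]) * (ψ (α * w1 + β * w2) (γ * w1 + δ * w2) -
        ψ (α * v1 + β * v2) (γ * v1 + δ * v2)) : ℤ_[p]) :
        ℚ_[p]) = F α β γ δ := by
    intro v1 v2 w1 w2
    by_cases hv : v1 ≠ 0 ∨ v2 ≠ 0
    · by_cases hw : w1 ≠ 0 ∨ w2 ≠ 0
      · have nzv : ∀ {x y : ℤ}, (x ≠ 0 ∨ y ≠ 0) → (y ≠ 0 ∨ -(7 * x) ≠ 0) := by
          rintro x y (h | h)
          · exact Or.inr (neg_ne_zero.mpr (mul_ne_zero (by norm_num) h))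
          · exact Or.inl h
        obtain ⟨F, hF1, hF2⟩ := hMC p hp a 1 (act 0 (-1) 7 0 ψ) hp2 le_rfl
          (hψ.act (by norm_num)) (fun M hM => lev_W hp2 M hM (hlev M hM))
          (fun h => by
            rw [Nb_W]
            exact act_zero (hNc (-(7 * h)) ((dvd_neg).mpr (Dvd.intro _ rfl))) (by norm_num))
          (fun c hc => by
            obtain ⟨c, rfl⟩ := hc
            rw [pow_one, mul_assoc, Nc_W]
            refine act_zero ?_ (by norm_num)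
            have := hNb (-(p * c))
            rw [Nb_add, Nb_smul] at this
            exact sub_zero' this (smul_zero' κ (w2b (-(p * c)) ((dvd_neg).mpr (Dvd.intro _ rfl)))))
          v2 (-(7 * v1)) w2 (-(7 * w1)) (nzv hv) (nzv hw)
        refine ⟨fun α β γ δ => F δ (1 / 7 * -γ) (7 * -β) α, fun _ _ => ⟨?_, fun α β γ δ h1 h2 => ?_⟩⟩
        · have r0 := (hT p hp a F hF1).2.1 (1 / 7) 7
          have r1 := (hT p hp a _ r0).2.2.1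
          have r2 := (hT p hp a _ r1).1 0 1 (-1) 0
          have e : (fun α β γ δ : ℚ_[p] => F (-(γ * 0 + δ * -1)) (1 / 7 * -(γ * 1 + δ * 0))
            (7 * (α * 0 + β * -1)) (α * 1 + β * 0)) = fun α β γ δ => F δ (1 / 7 * -γ) (7 * -β) α := by
            funext α β γ δ
            congr 1 <;> ring
          rw [← e]
          exact r2
        · have h2c : (7 : ℤ) ∣ γ := by
            rcases h1 with ⟨_, h2⟩ | ⟨_, _, h3, _⟩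
            · exact h2
            · exact h3
          have hg0 : α * δ - β * γ ≠ 0 := h1.det_ne
          obtain ⟨c, rfl⟩ := h2c
          have hty : HTy δ (-c) (-(7 * β)) α := by
            rcases h1 with ⟨k1, k2⟩ | ⟨k1, k2, k3, k4⟩
            · exact Or.inl ⟨by linear_combination k1, (dvd_neg).mpr (Dvd.intro _ rfl)⟩
            · exact Or.inr ⟨by linear_combination k1, k4, (dvd_neg).mpr (Dvd.intro _ rfl), k2⟩
          have g := hF2 δ (-c) (-(7 * β)) α hty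
            (by rw [pow_one]; exact (dvd_neg).mpr (Dvd.dvd.mul_left h2 _))
          simp only [act] at g
          have c1 : ∀ x y : ℤ, 0 * (δ * y + -c * -(7 * x)) + -1 * (-(7 * β) * y + α * -(7 * x)) =
              7 * (α * x + β * y) := by intro x y; ring
          have c2 : ∀ x y : ℤ, 7 * (δ * y + -c * -(7 * x)) + 0 * (-(7 * β) * y + α * -(7 * x)) =
              7 * (7 * c * x + δ * y) := by intro x y; ring
          have c3 : δ * α - -c * -(7 * β) = α * δ - β * (7 * c) := by ring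
          rw [c1, c1, c2, c2, c3, hψ 7 _ _ (by norm_num) (ne_zero_of_det hg0 hw),
            hψ 7 _ _ (by norm_num) (ne_zero_of_det hg0 hv)] at g
          rw [g]
          have d1 : ((-c : ℤ) : ℚ_[p]) = 1 / 7 * -((7 * c : ℤ) : ℚ_[p]) := by push_cast; ring
          have d2 : ((-(7 * β) : ℤ) : ℚ_[p]) = 7 * -(β : ℚ_[p]) := by push_cast; ring
          rw [d1, d2]
      · exact ⟨0, fun _ h => absurd h hw⟩
    · exact ⟨0, fun h _ => absurd h hv⟩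
  choose F hF using h2
  have hθH : Homog (act (p : ℤ) 0 0 1 ψ) := hψ.act (by simpa using hp0)
  -- equivariance
  have hE' := equivG hT p a (act (p : ℤ) 0 0 1 ψ) (fun _ _ γ _ => (p : ℤ) ∣ γ)
    (fun _ _ _ _ _ h => h)
    (fun α β γ δ x y z t h1 h2 => dvd_add (Dvd.dvd.mul_right h1 _) (Dvd.dvd.mul_left h2 _)) F' hF'
  have hE := equivG hT p a ψ (fun _ β _ _ => (p : ℤ) ∣ β)
    (fun _ _ _ _ h _ => h)
    (fun α β γ δ x y z t h1 h2 => dvd_add (Dvd.dvd.mul_left h2 _) (Dvd.dvd.mul_right h1 _)) F hF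
  have hS' := scaleG hT p a (act (p : ℤ) 0 0 1 ψ) hθH (fun _ _ γ _ => (p : ℤ) ∣ γ)
    (fun _ _ _ _ _ h => h) F' hF'
  have hS := scaleG hT p a ψ hψ (fun _ β _ _ => (p : ℤ) ∣ β)
    (fun _ _ _ _ h _ => h) F hF
  obtain ⟨eg1, -, eg3, eg4⟩ := hEG p hp a Φ
  -- `κ EGf = F' - F`
  have hR : ∀ v1 v2 w1 w2 : ℤ, (v1 ≠ 0 ∨ v2 ≠ 0) → (w1 ≠ 0 ∨ w2 ≠ 0) → ∀ α β γ δ : ℚ_[p],
      F' v1 v2 w1 w2 α β γ δ - F v1 v2 w1 w2 α β γ δ = (κ : ℚ_[p]) * EGf a Φ v1 v2 w1 w2 α β γ δ := by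
    intro v1 v2 w1 w2 hv hw α β γ δ
    obtain ⟨r1, f1⟩ := hF' v1 v2 w1 w2 hv hw
    obtain ⟨r2, f2⟩ := hF v1 v2 w1 w2 hv hw
    have r3 := (hT p hp a _ r1).2.2.2.1 _ 1 (-1) r2
    have r4 := (hT p hp a _ r3).2.2.2.1 _ 1 (-(κ : ℚ_[p])) (eg1 v1 v2 w1 w2)
    have key := RgQ p hp a 1 _ r4 (fun α β γ δ h1 _ h3 h4 _ h5 => ?_) α β γ δ
    · linear_combination key
    · rw [pow_one] at h3 h4
      have hd0 : α * δ - β * γ ≠ 0 := by rw [h1]; exact one_ne_zero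
      have g1 := f1 α β γ δ (Or.inl ⟨h1, h5⟩) h4
      have g2 := f2 α β γ δ (Or.inl ⟨h1, h5⟩) h3
      have g3 := eg4 v1 v2 w1 w2 α β γ δ hv hw (by
        have := hΦ.eqv α β γ δ h1 h3 h5 (by simpa using h4) a (by omega)
        rwa [show 2 * a - a = a by omega] at this)
      have k1 := hk _ _ (ne_zero_of_det hd0 hv)
      have k2 := hk _ _ (ne_zero_of_det hd0 hw)
      simp only [Pi.sub_apply, Pi.smul_apply, cp, zsmul_eq_mul] at k1 k2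
      rw [h1, one_pow, Int.cast_one, one_mul] at g1 g2
      rw [← g1, ← g2, ← g3]
      have k1' := congrArg (fun q : ℤ_[p] => (q : ℚ_[p])) k1
      have k2' := congrArg (fun q : ℤ_[p] => (q : ℚ_[p])) k2
      push_cast at k1' k2' ⊢
      linear_combination k2' - k1'
  -- the main part
  have main : ∀ v1 v2 w1 w2 : ℤ, (v1 ≠ 0 ∨ v2 ≠ 0) → (w1 ≠ 0 ∨ w2 ≠ 0) →
      Φ w1 w2 a = Φ v1 v2 a := by
    intro v1 v2 w1 w2 hv hw
    have i1 := mm_inv hT a (fun _ β _ _ => (p : ℤ) ∣ β) F (fun v1 v2 w1 w2 hv hw => (hF v1 v2 w1 w2 hv hw).1)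
      hE v1 v2 w1 w2 hv hw
    have i2 := mm_inv hT a (fun _ _ γ _ => (p : ℤ) ∣ γ) F' (fun v1 v2 w1 w2 hv hw => (hF' v1 v2 w1 w2 hv hw).1)
      hE' v1 v2 w1 w2 hv hw
    have s1 := mm_scale hT a F (fun v1 v2 w1 w2 hv hw => (hF v1 v2 w1 w2 hv hw).1) hS v1 v2 w1 w2 hv hw
    have s2 := mm_scale hT a F' (fun v1 v2 w1 w2 hv hw => (hF' v1 v2 w1 w2 hv hw).1) hS' v1 v2 w1 w2 hv hw
    -- `m' - m`
    have hD : ∀ α β γ δ e : ℤ, α * δ - β * γ = e → e ≠ 0 →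
        mm a F' v1 v2 w1 w2 α β γ δ - mm a F v1 v2 w1 w2 α β γ δ =
        ((e : ℚ_[p])⁻¹) ^ a * ((κ : ℚ_[p]) * EGf a Φ (α * v1 + β * v2) (γ * v1 + δ * v2)
          (α * w1 + β * w2) (γ * w1 + δ * w2)
          (δ : ℚ_[p]) (-(β : ℚ_[p])) (-(γ : ℚ_[p])) (α : ℚ_[p])) := by
      intro α β γ δ e h1 he
      have hd0 : α * δ - β * γ ≠ 0 := by rw [h1]; exact he
      rw [← hR _ _ _ _ (ne_zero_of_det hd0 hv) (ne_zero_of_det hd0 hw),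
        mm_of a F v1 v2 w1 w2 α β γ δ e h1 he, mm_of a F' v1 v2 w1 w2 α β γ δ e h1 he]
      ring
    have hav := hAV p hp (mm a F v1 v2 w1 w2) (mm a F' v1 v2 w1 w2) hp2
      (fun k α β γ δ hk => s1 k α β γ δ hk) (fun k α β γ δ hk => s2 k α β γ δ hk)
      (fun x y z t α β γ δ h1 h2 h3 => i1 x y z t α β γ δ h1 h2 h3)
      (fun x y z t α β γ δ h1 h2 h3 => i2 x y z t α β γ δ h1 h2 h3)
      (fun α β γ δ h1 => ?_) (fun α β γ δ h1 => ?_) 1 0 0 1 (Or.inl ⟨by norm_num, dvd_zero _⟩)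
    · have hr := hR v1 v2 w1 w2 hv hw 1 0 0 1
      rw [eg3] at hr
      have e : ∀ K : ℤ → ℤ → ℤ → ℤ → ℚ_[p] → ℚ_[p] → ℚ_[p] → ℚ_[p] → ℚ_[p],
          mm a K v1 v2 w1 w2 1 0 0 1 = K v1 v2 w1 w2 1 0 0 1 := by
        intro K
        rw [mm_of a K v1 v2 w1 w2 1 0 0 1 1 (by norm_num) one_ne_zero]
        simp
      rw [e, e] at hav
      rw [hav, sub_self] at hr
      have h4 : (κ : ℚ_[p]) ≠ 0 := by exact_mod_cast hκ
      have h5 := (mul_eq_zero.mp hr.symm).resolve_left h4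
      have h6 : Φ w1 w2 a - Φ v1 v2 a = 0 := PadicInt.coe_eq_zero.mp h5
      exact sub_eq_zero.mp h6
    · have hd0 : α * δ - β * γ ≠ 0 := h1.det_ne
      have hm := (hM2B p hp a Φ hΦ _ _ _ _ (ne_zero_of_det hd0 hv) (ne_zero_of_det hd0 hw)
        (δ : ℚ_[p]) (-(β : ℚ_[p])) (-(γ : ℚ_[p])) (α : ℚ_[p])).1
      have e1 : ∀ i ∈ Finset.range p, mm a F v1 v2 w1 w2 (α + i * γ) (β + i * δ) γ δ =
          mm a F' v1 v2 w1 w2 α β γ δ - (((((α * δ - β * γ : ℤ) : ℚ_[p]))⁻¹) ^ a * (κ : ℚ_[p])) *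
            EGf a Φ (α * v1 + β * v2 + i * (γ * v1 + δ * v2))
            (γ * v1 + δ * v2) (α * w1 + β * w2 + i * (γ * w1 + δ * w2)) (γ * w1 + δ * w2)
            (δ : ℚ_[p]) (-(β : ℚ_[p]) - i * (δ : ℚ_[p])) (-(γ : ℚ_[p]))
            ((α : ℚ_[p]) - i * (-(γ : ℚ_[p]))) := by
        intro i _
        have j2 := i2 1 i 0 1 α β γ δ (Or.inl ⟨by norm_num, dvd_zero _⟩) h1 (dvd_zero _)
        have hr := hD (α + i * γ) (β + i * δ) γ δ (α * δ - β * γ) (by ring) hd0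
        have f1 : mm a F' v1 v2 w1 w2 (1 * α + i * γ) (1 * β + i * δ) (0 * α + 1 * γ)
            (0 * β + 1 * δ) = mm a F' v1 v2 w1 w2 (α + i * γ) (β + i * δ) γ δ := by
          congr 1 <;> ring
        have f2 : EGf a Φ ((α + i * γ) * v1 + (β + i * δ) * v2) (γ * v1 + δ * v2)
            ((α + i * γ) * w1 + (β + i * δ) * w2) (γ * w1 + δ * w2)
            (δ : ℚ_[p]) (-((β + i * δ : ℤ) : ℚ_[p])) (-(γ : ℚ_[p])) ((α + i * γ : ℤ) : ℚ_[p]) =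
            EGf a Φ (α * v1 + β * v2 + i * (γ * v1 + δ * v2))
            (γ * v1 + δ * v2) (α * w1 + β * w2 + i * (γ * w1 + δ * w2)) (γ * w1 + δ * w2)
            (δ : ℚ_[p]) (-(β : ℚ_[p]) - i * (δ : ℚ_[p])) (-(γ : ℚ_[p]))
            ((α : ℚ_[p]) - i * (-(γ : ℚ_[p]))) := by
          congr 1
          · ring
          · ring
          · push_cast; ring
          · push_cast; ring
        rw [← f2, ← j2, f1]
        linear_combination -hr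
      rw [Finset.sum_congr rfl e1, Finset.sum_sub_distrib, ← Finset.mul_sum, hm]
      simp
    · have hd0 : α * δ - β * γ ≠ 0 := h1.det_ne
      have hm := (hM2B p hp a Φ hΦ _ _ _ _ (ne_zero_of_det hd0 hv) (ne_zero_of_det hd0 hw)
        (δ : ℚ_[p]) (-(β : ℚ_[p])) (-(γ : ℚ_[p])) (α : ℚ_[p])).2
      have e1 : ∀ i ∈ Finset.range p, mm a F' v1 v2 w1 w2 α β (7 * i * α + γ) (7 * i * β + δ) =
          mm a F v1 v2 w1 w2 α β γ δ + (((((α * δ - β * γ : ℤ) : ℚ_[p]))⁻¹) ^ a * (κ : ℚ_[p])) *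
            EGf a Φ (α * v1 + β * v2)
            (7 * i * (α * v1 + β * v2) + (γ * v1 + δ * v2)) (α * w1 + β * w2)
            (7 * i * (α * w1 + β * w2) + (γ * w1 + δ * w2))
            ((δ : ℚ_[p]) - 7 * i * (-(β : ℚ_[p]))) (-(β : ℚ_[p])) (-(γ : ℚ_[p]) - 7 * i * (α : ℚ_[p]))
            (α : ℚ_[p]) := by
        intro i _
        have j2 := i1 1 0 (7 * i) 1 α β γ δ (Or.inl ⟨by ring, Dvd.intro _ rfl⟩) h1 (dvd_zero _)
        have hr := hD α β (7 * i * α + γ) (7 * i * β + δ) (α * δ - β * γ) (by ring) hd0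
        have f1 : mm a F v1 v2 w1 w2 (1 * α + 0 * γ) (1 * β + 0 * δ) (7 * i * α + 1 * γ)
            (7 * i * β + 1 * δ) = mm a F v1 v2 w1 w2 α β (7 * i * α + γ) (7 * i * β + δ) := by
          congr 1 <;> ring
        have f2 : EGf a Φ (α * v1 + β * v2) ((7 * i * α + γ) * v1 + (7 * i * β + δ) * v2)
            (α * w1 + β * w2) ((7 * i * α + γ) * w1 + (7 * i * β + δ) * w2)
            ((7 * i * β + δ : ℤ) : ℚ_[p]) (-(β : ℚ_[p])) (-((7 * i * α + γ : ℤ) : ℚ_[p])) (α : ℚ_[p]) =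
            EGf a Φ (α * v1 + β * v2)
            (7 * i * (α * v1 + β * v2) + (γ * v1 + δ * v2)) (α * w1 + β * w2)
            (7 * i * (α * w1 + β * w2) + (γ * w1 + δ * w2))
            ((δ : ℚ_[p]) - 7 * i * (-(β : ℚ_[p]))) (-(β : ℚ_[p])) (-(γ : ℚ_[p]) - 7 * i * (α : ℚ_[p]))
            (α : ℚ_[p]) := by
          congr 1
          · ring
          · ring
          · push_cast; ring
          · push_cast; ring
        rw [← f2, ← j2, f1]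
        linear_combination hr
      rw [Finset.sum_congr rfl e1, Finset.sum_add_distrib, ← Finset.mul_sum, hm]
      simp
  refine ⟨cp Φ a 1 0, fun x y hxy => ?_⟩
  simp only [cp, Pi.zero_apply, zero_add]
  exact main 1 0 x y (Or.inl one_ne_zero) hxy

end Pool.Agent.Helper28.T7V
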