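import Pool.Agent.Helper28.T7.StV

/-!
# Project TK, low levels, module MC: matrix coefficients along the matrices `HTy` with `p^ν ∣ γ` (step (iv))
-/

set_option autoImplicit false

namespace Pool.Agent.Helper28.T7V

open Pool.Agent.Helper28.TH (OkH ALPlus)

open Pool.Agent.Helper28.T7 Pool.Agent.Helper28.WK Pool.Agent.Helper28.LV Pool.Agent.Helper28.T7
  Pool.Agent.Helper14.CV

/-- an inverse modulo `p^L` -/
private lemma inv_mod {p : ℕ} {α : ℤ} (hdet : IsCoprime α (p : ℤ)) (L : ℕ) :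
    ∃ A : ℤ, (p : ℤ) ^ L ∣ 1 - α * A := by
  obtain ⟨u, t, h⟩ := IsCoprime.pow_right (n := L) hdet
  exact ⟨u, t, by linear_combination (-1 : ℤ) * h⟩

private lemma norm_of_dvd {p : ℕ} [Fact p.Prime] {L : ℕ} {k : ℤ} (h : (p : ℤ) ^ L ∣ k) :
    ‖(k : ℚ_[p])‖ ≤ ((p : ℝ) ^ L)⁻¹ := by
  have h1 := (Padic.norm_int_le_pow_iff_dvd (p := p) k L).2 h
  rwa [zpow_neg, zpow_natCast] at h1

private lemma norm_of_red {p : ℕ} [Fact p.Prime] {L : ℕ} {z : ℤ_[p]}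
    (h : PadicInt.toZModPow L z = 0) : ‖(z : ℚ_[p])‖ ≤ ((p : ℝ) ^ L)⁻¹ := by
  have h1 : z ∈ RingHom.ker (PadicInt.toZModPow (p := p) L) := h
  rw [PadicInt.ker_toZModPow, ← PadicInt.norm_le_pow_iff_mem_span_pow] at h1
  rw [zpow_neg, zpow_natCast] at h1
  exact h1

private lemma tends {p : ℕ} [hp : Fact p.Prime] (α : ℤ) (hα : (α : ℚ_[p]) ≠ 0) (A : ℕ → ℤ)
    (hA : ∀ L, (p : ℤ) ^ L ∣ 1 - α * A L) :
    Filter.Tendsto (fun L => ((A L : ℤ) : ℚ_[p])) Filter.atTop (nhds ((α : ℚ_[p])⁻¹)) := by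
  have hp1 : (1 : ℝ) < p := by exact_mod_cast hp.out.one_lt
  have h1 : Filter.Tendsto (fun L => ((1 - α * A L : ℤ) : ℚ_[p])) Filter.atTop (nhds 0) := by
    refine squeeze_zero_norm (fun L => norm_of_dvd (hA L)) ?_
    have := tendsto_pow_atTop_nhds_zero_of_lt_one (r := ((p : ℝ))⁻¹) (by positivity)
      (inv_lt_one_of_one_lt₀ hp1)
    simpa [inv_pow] using this
  have h2 : (fun L => ((A L : ℤ) : ℚ_[p])) =
      fun L => (α : ℚ_[p])⁻¹ * (1 - ((1 - α * A L : ℤ) : ℚ_[p])) := by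
    funext L
    push_cast
    field_simp
    ring
  rw [h2]
  have h3 := ((tendsto_const_nhds (x := (1 : ℚ_[p]))).sub h1).const_mul ((α : ℚ_[p])⁻¹)
  simpa using h3

private lemma fin_lim {p : ℕ} [Fact p.Prime] (a ν : ℕ) (P : ℕ → ℕ → ℚ_[p]) (D : ℚ_[p])
    (α β g δ e : ℤ) (hα0 : (α : ℚ_[p]) ≠ 0) (hδ0 : (δ : ℚ_[p]) ≠ 0)
    (hdet : α * δ - β * ((p : ℤ) ^ ν * g) = e) (A B : ℕ → ℤ)
    (hA : ∀ L, (p : ℤ) ^ L ∣ 1 - α * A L) (hB : ∀ L, (p : ℤ) ^ L ∣ 1 - (7 * δ) * B L)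
    (hbd : ∀ L : ℕ, 3 ≤ L → ‖(1 - 7 * (p : ℚ_[p]) ^ ν * ((β * A L : ℤ) : ℚ_[p]) *
      ((g * B L : ℤ) : ℚ_[p])) ^ a * D - ∑ i ∈ Finset.range (a + 1), ∑ j ∈ Finset.range (a + 1),
        P i j * (((β * A L : ℤ) : ℚ_[p]) ^ i * ((g * B L : ℤ) : ℚ_[p]) ^ j)‖ ≤ ((p : ℝ) ^ L)⁻¹) :
    (e : ℚ_[p]) ^ a * D = ((α : ℚ_[p]) * δ) ^ a *
      ∑ i ∈ Finset.range (a + 1), ∑ j ∈ Finset.range (a + 1),
        (P i j * ((7 : ℚ_[p]) ^ j)⁻¹) *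
          (((β : ℚ_[p]) * (α : ℚ_[p])⁻¹) ^ i * ((g : ℚ_[p]) * (δ : ℚ_[p])⁻¹) ^ j) := by
  have hp1 : (1 : ℝ) < p := by exact_mod_cast (Fact.out : p.Prime).one_lt
  have h20 : (7 : ℚ_[p]) ≠ 0 := (by norm_num)
  have hinv : Filter.Tendsto (fun L : ℕ => ((p : ℝ) ^ L)⁻¹) Filter.atTop (nhds 0) := by
    have := tendsto_pow_atTop_nhds_zero_of_lt_one (r := ((p : ℝ))⁻¹) (by positivity)
      (inv_lt_one_of_one_lt₀ hp1)
    simpa [inv_pow] using this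
  have c2 : (((7 * δ : ℤ)) : ℚ_[p]) = 7 * (δ : ℚ_[p]) := by push_cast; ring
  have hx : Filter.Tendsto (fun L => ((β * A L : ℤ) : ℚ_[p])) Filter.atTop
      (nhds ((β : ℚ_[p]) * (α : ℚ_[p])⁻¹)) := by
    have := (tends α hα0 A hA).const_mul (β : ℚ_[p])
    simpa using this
  have hy : Filter.Tendsto (fun L => ((g * B L : ℤ) : ℚ_[p])) Filter.atTop
      (nhds ((g : ℚ_[p]) * (7 * (δ : ℚ_[p]))⁻¹)) := by
    have := (tends (7 * δ) (by rw [c2]; exact mul_ne_zero h20 hδ0) B hB).const_mul (g : ℚ_[p])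
    rw [c2] at this
    simpa using this
  have h0 := squeeze_zero_norm' (Filter.eventually_atTop.2 ⟨3, hbd⟩) hinv
  have h1 := (((((hx.const_mul (7 * (p : ℚ_[p]) ^ ν)).mul hy).const_sub 1).pow a).mul_const D).sub
    (tendsto_finsetSum (Finset.range (a + 1)) fun i _ =>
      tendsto_finsetSum (Finset.range (a + 1)) fun j _ =>
        ((hx.pow i).mul (hy.pow j)).const_mul (P i j))
  have h2 := tendsto_nhds_unique h1 h0
  have hdet' : (α : ℚ_[p]) * δ - β * ((p : ℚ_[p]) ^ ν * g) = e := by exact_mod_cast hdet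
  have hαδ : (α : ℚ_[p]) * δ * ((α : ℚ_[p]) * δ)⁻¹ = 1 :=
    mul_inv_cancel₀ (mul_ne_zero hα0 hδ0)
  have h3 : 1 - 7 * (p : ℚ_[p]) ^ ν * ((β : ℚ_[p]) * (α : ℚ_[p])⁻¹) *
      ((g : ℚ_[p]) * (7 * (δ : ℚ_[p]))⁻¹) = (e : ℚ_[p]) * ((α : ℚ_[p]) * δ)⁻¹ := by
    have e1 : 7 * (p : ℚ_[p]) ^ ν * ((β : ℚ_[p]) * (α : ℚ_[p])⁻¹) *
      ((g : ℚ_[p]) * (7 * (δ : ℚ_[p]))⁻¹) =
      (β * ((p : ℚ_[p]) ^ ν * g)) * ((α : ℚ_[p]) * δ)⁻¹ := by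
      field_simp
    rw [e1]
    linear_combination ((α : ℚ_[p]) * δ)⁻¹ * hdet' - hαδ
  rw [h3, sub_eq_zero] at h2
  have h4 : ∑ i ∈ Finset.range (a + 1), ∑ j ∈ Finset.range (a + 1),
        (P i j * ((7 : ℚ_[p]) ^ j)⁻¹) *
          (((β : ℚ_[p]) * (α : ℚ_[p])⁻¹) ^ i * ((g : ℚ_[p]) * (δ : ℚ_[p])⁻¹) ^ j) =
      ∑ i ∈ Finset.range (a + 1), ∑ j ∈ Finset.range (a + 1),
        P i j * (((β : ℚ_[p]) * (α : ℚ_[p])⁻¹) ^ i *
          ((g : ℚ_[p]) * (7 * (δ : ℚ_[p]))⁻¹) ^ j) := by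
    refine Finset.sum_congr rfl fun i _ => Finset.sum_congr rfl fun j _ => ?_
    rw [mul_inv, mul_pow (g : ℚ_[p]), mul_pow (g : ℚ_[p]), mul_pow ((7 : ℚ_[p])⁻¹), inv_pow (7 : ℚ_[p])]
    ring
  rw [h4, ← h2]
  calc (e : ℚ_[p]) ^ a * D = (e : ℚ_[p]) ^ a * D * ((α : ℚ_[p]) * δ * ((α : ℚ_[p]) * δ)⁻¹) ^ a := by
        rw [hαδ, one_pow, mul_one]
    _ = ((α : ℚ_[p]) * δ) ^ a * (((e : ℚ_[p]) * ((α : ℚ_[p]) * δ)⁻¹) ^ a * D) := by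
        rw [mul_pow (e : ℚ_[p]), mul_pow ((α : ℚ_[p]) * δ)]
        ring

/-- the correcting matrix -/
private lemma hty_K {α β γ δ : ℤ} (h : HTy α β γ δ) (C x : ℤ) (hC : (7 : ℤ) ∣ C) :
    HTy (α * (1 + C * x) - β * C) (β - α * x) (γ * (1 + C * x) - δ * C) (δ - γ * x) := by
  obtain ⟨c, rfl⟩ := hC
  rcases h with ⟨h1, q, rfl⟩ | ⟨h1, ⟨u, rfl⟩, ⟨q, rfl⟩, ⟨r, rfl⟩⟩
  · exact Or.inl ⟨by linear_combination h1, ⟨q * (1 + 7 * c * x) - δ * c, by ring⟩⟩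
  · exact Or.inr ⟨by linear_combination h1, ⟨u * (1 + 7 * c * x) - β * c, by ring⟩,
      ⟨q * (1 + 7 * c * x) - 7 * r * c, by ring⟩, ⟨r - q * x, by ring⟩⟩

private lemma fin_alg {p : ℕ} [Fact p.Prime] (a ν : ℕ) (P : ℕ → ℕ → ℚ_[p])
    (α β g δ : ℚ_[p]) (hα0 : α ≠ 0) (hδ0 : δ ≠ 0) :
    (α * δ) ^ a * ∑ i ∈ Finset.range (a + 1), ∑ j ∈ Finset.range (a + 1),
        P i j * ((β * α⁻¹) ^ i * (g * δ⁻¹) ^ j) =
    ∑ i ∈ Finset.range (a + 1), ∑ j ∈ Finset.range (a + 1),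
      (P i j * ((p : ℚ_[p]) ^ (ν * j))⁻¹) * (α ^ (a - i) * β ^ i *
        (((p : ℚ_[p]) ^ ν * g) ^ j * δ ^ (a - j))) := by
  have hp0 : (p : ℚ_[p]) ≠ 0 := by
    exact_mod_cast (Fact.out : p.Prime).ne_zero
  rw [Finset.mul_sum]
  refine Finset.sum_congr rfl fun i hi => ?_
  rw [Finset.mul_sum]
  refine Finset.sum_congr rfl fun j hj => ?_
  have hi' : i ≤ a := Nat.lt_succ_iff.1 (Finset.mem_range.1 hi)
  have hj' : j ≤ a := Nat.lt_succ_iff.1 (Finset.mem_range.1 hj)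
  have ea : α ^ a = α ^ (a - i) * α ^ i := by
    rw [← pow_add, Nat.sub_add_cancel hi']
  have ed : δ ^ a = δ ^ (a - j) * δ ^ j := by
    rw [← pow_add, Nat.sub_add_cancel hj']
  have h1 : α ^ i * (α⁻¹) ^ i = 1 := by
    rw [← mul_pow, mul_inv_cancel₀ hα0, one_pow]
  have h2 : δ ^ j * (δ⁻¹) ^ j = 1 := by
    rw [← mul_pow, mul_inv_cancel₀ hδ0, one_pow]
  have h3 : ((p : ℚ_[p]) ^ (ν * j))⁻¹ * ((p : ℚ_[p]) ^ ν) ^ j = 1 := by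
    rw [← pow_mul]
    exact inv_mul_cancel₀ (pow_ne_zero _ hp0)
  rw [mul_pow, ea, ed, mul_pow, mul_pow, mul_pow]
  calc _ = P i j * (α ^ (a - i) * β ^ i * g ^ j * δ ^ (a - j)) * (α ^ i * (α⁻¹) ^ i) *
        (δ ^ j * (δ⁻¹) ^ j) := by ring
    _ = P i j * (α ^ (a - i) * β ^ i * g ^ j * δ ^ (a - j)) *
        (((p : ℚ_[p]) ^ (ν * j))⁻¹ * ((p : ℚ_[p]) ^ ν) ^ j) := by rw [h1, h2, h3, mul_one]
    _ = _ := by ring

/-- MC-H. -/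
theorem hMC : ZMC := by
  intro hG p _ a ν H hp2 hν hH hS hb hc v1 v2 w1 w2 hv hw
  obtain ⟨P, hP⟩ := hG p ‹_› a ν H hν hH hS hb hc v1 v2 w1 w2 hv hw
  refine ⟨fun α β γ δ => ∑ i ∈ Finset.range (a + 1), ∑ j ∈ Finset.range (a + 1),
    ((P i j * ((7 : ℚ_[p]) ^ j)⁻¹) * ((p : ℚ_[p]) ^ (ν * j))⁻¹) *
      (α ^ (a - i) * β ^ i * (γ ^ j * δ ^ (a - j))),
    ⟨fun i j => (P i j * ((7 : ℚ_[p]) ^ j)⁻¹) * ((p : ℚ_[p]) ^ (ν * j))⁻¹,
      fun _ _ _ _ => rfl⟩, ?_⟩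
  intro α β γ δ hty hγ
  obtain ⟨g, rfl⟩ := hγ
  have h2p : IsCoprime (7 : ℤ) (p : ℤ) := by
    have h := (Nat.coprime_primes Nat.prime_seven (Fact.out : p.Prime)).2 (Ne.symm hp2)
    exact_mod_cast Nat.isCoprime_iff_coprime.2 h
  obtain ⟨e, hdet⟩ : ∃ e : ℤ, α * δ - β * ((p : ℤ) ^ ν * g) = e := ⟨_, rfl⟩
  have he : IsCoprime e (p : ℤ) := by
    rcases hty with ⟨h1, -⟩ | ⟨h1, -⟩
    · rw [← hdet, h1]
      exact isCoprime_one_left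
    · rw [← hdet, h1]
      exact h2p
  -- `α`, `δ` are prime to `p`
  have hpν : (p : ℤ) ^ ν = (p : ℤ) ^ (ν - 1) * p := by
    rw [← pow_succ, Nat.sub_add_cancel hν]
  have hαp : IsCoprime α (p : ℤ) := by
    obtain ⟨m, k, hmk⟩ := he
    refine ⟨m * δ, k - m * (β * ((p : ℤ) ^ (ν - 1) * g)), ?_⟩
    rw [hpν] at hdet
    linear_combination hmk + m * hdet
  have hδp : IsCoprime δ (p : ℤ) := by
    obtain ⟨m, k, hmk⟩ := he
    refine ⟨m * α, k - m * (β * ((p : ℤ) ^ (ν - 1) * g)), ?_⟩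
    rw [hpν] at hdet
    linear_combination hmk + m * hdet
  have hne : ∀ t : ℤ, IsCoprime t (p : ℤ) → (t : ℚ_[p]) ≠ 0 := by
    intro t ht h
    have h0 : t = 0 := by exact_mod_cast h
    rw [h0] at ht
    have h1 : IsUnit (p : ℤ) := isCoprime_zero_left.1 ht
    rw [Int.isUnit_iff_natAbs_eq, Int.natAbs_natCast] at h1
    exact (Fact.out : p.Prime).one_lt.ne' h1
  have hα0 := hne α hαp
  have hδ0 := hne δ hδp
  choose A hA using fun L => inv_mod hαp L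
  choose B hB using fun L => inv_mod (h2p.mul_left hδp) L
  choose E hE using fun L => inv_mod (h2p.mul_left he) L
  set Δ : ℤ_[p] := H (α * w1 + β * w2) ((p : ℤ) ^ ν * g * w1 + δ * w2) -
    H (α * v1 + β * v2) ((p : ℤ) ^ ν * g * v1 + δ * v2) with hΔ
  -- the bound
  have hbd : ∀ L : ℕ, 3 ≤ L → ‖(1 - 7 * (p : ℚ_[p]) ^ ν * ((β * A L : ℤ) : ℚ_[p]) *
      ((g * B L : ℤ) : ℚ_[p])) ^ a * (Δ : ℚ_[p]) -
      ∑ i ∈ Finset.range (a + 1), ∑ j ∈ Finset.range (a + 1),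
        P i j * (((β * A L : ℤ) : ℚ_[p]) ^ i * ((g * B L : ℤ) : ℚ_[p]) ^ j)‖ ≤
      ((p : ℝ) ^ L)⁻¹ := by
    intro L hL
    obtain ⟨s, hs⟩ := hA L
    obtain ⟨t, ht⟩ := hB L
    obtain ⟨r, hr⟩ := hE L
    have hcong : (p : ℤ) ^ L ∣ (α * g * E L) * (1 - 7 * (p : ℤ) ^ ν * (β * A L) * (g * B L)) -
        g * B L := by
      refine ⟨α * g * E L * t - r * (g * B L) + 7 * s * (p : ℤ) ^ ν * β * g ^ 2 * B L * E L, ?_⟩
      linear_combination (7 * (p : ℤ) ^ ν * β * g ^ 2 * B L * E L) * hs + (α * g * E L) * ht -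
        (g * B L) * hr + (7 * g * B L * E L) * hdet
    have h1 := hP L (β * A L) (g * B L) (α * g * E L) hL hcong
    -- the matrix
    have hsym := hS L hL
    obtain ⟨k, hk⟩ := hsym.2
      (α * (1 + (7 * (p : ℤ) ^ ν * (α * g * E L)) * (β * A L)) -
        β * (7 * (p : ℤ) ^ ν * (α * g * E L)))
      (β - α * (β * A L))
      ((p : ℤ) ^ ν * g * (1 + (7 * (p : ℤ) ^ ν * (α * g * E L)) * (β * A L)) -
        δ * (7 * (p : ℤ) ^ ν * (α * g * E L)))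
      (δ - (p : ℤ) ^ ν * g * (β * A L))
      (hty_K hty _ _ ⟨(p : ℤ) ^ ν * (α * g * E L), by ring⟩)
      ⟨β * s, by linear_combination β * hs⟩
      ⟨g * (r - 7 * s * (p : ℤ) ^ ν * β * g * E L), by
        rw [pow_add]
        linear_combination ((p : ℤ) ^ ν * g) * hr - ((p : ℤ) ^ ν * g * 7 * E L) * hdet -
          ((p : ℤ) ^ ν * g * (7 * (p : ℤ) ^ ν * β * g * E L)) * hs⟩
    have hz : ∀ u1 u2 : ℤ, (u1 ≠ 0 ∨ u2 ≠ 0) →
        redP L H (α * u1 + β * u2) ((p : ℤ) ^ ν * g * u1 + δ * u2) =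
        redP L H (u1 + (β * A L) * u2)
          (7 * (p : ℤ) ^ ν * (α * g * E L) * (u1 + (β * A L) * u2) + u2) + k := by
      intro u1 u2 hu
      have hne2 := ne_zero_of_det (a := 1) (b := β * A L)
        (c := 7 * (p : ℤ) ^ ν * (α * g * E L))
        (d := 1 + (7 * (p : ℤ) ^ ν * (α * g * E L)) * (β * A L)) (by
          have : (1 : ℤ) * (1 + (7 * (p : ℤ) ^ ν * (α * g * E L)) * (β * A L)) -
            (β * A L) * (7 * (p : ℤ) ^ ν * (α * g * E L)) = 1 := by ring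
          rw [this]
          exact one_ne_zero) hu
      have h3 := hk _ _ hne2
      unfold act at h3
      have e1 : (α * (1 + (7 * (p : ℤ) ^ ν * (α * g * E L)) * (β * A L)) -
          β * (7 * (p : ℤ) ^ ν * (α * g * E L))) *
          (1 * u1 + (β * A L) * u2) + (β - α * (β * A L)) *
          (7 * (p : ℤ) ^ ν * (α * g * E L) * u1 +
            (1 + (7 * (p : ℤ) ^ ν * (α * g * E L)) * (β * A L)) * u2) =
          α * u1 + β * u2 := by ring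
      have e2 : ((p : ℤ) ^ ν * g * (1 + (7 * (p : ℤ) ^ ν * (α * g * E L)) * (β * A L)) -
          δ * (7 * (p : ℤ) ^ ν * (α * g * E L))) * (1 * u1 + (β * A L) * u2) +
          (δ - (p : ℤ) ^ ν * g * (β * A L)) *
          (7 * (p : ℤ) ^ ν * (α * g * E L) * u1 +
            (1 + (7 * (p : ℤ) ^ ν * (α * g * E L)) * (β * A L)) * u2) =
          (p : ℤ) ^ ν * g * u1 + δ * u2 := by ring
      have e3 : 1 * u1 + (β * A L) * u2 = u1 + (β * A L) * u2 := by ring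
      have e4 : 7 * (p : ℤ) ^ ν * (α * g * E L) * u1 +
            (1 + (7 * (p : ℤ) ^ ν * (α * g * E L)) * (β * A L)) * u2 =
          7 * (p : ℤ) ^ ν * (α * g * E L) * (u1 + (β * A L) * u2) + u2 := by ring
      rw [e1, e2] at h3
      rw [h3, e3, e4]
    have h4 := hz w1 w2 hw
    have h5 := hz v1 v2 hv
    set Δ' : ℤ_[p] := H (w1 + (β * A L) * w2)
        (7 * (p : ℤ) ^ ν * (α * g * E L) * (w1 + (β * A L) * w2) + w2) -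
      H (v1 + (β * A L) * v2)
        (7 * (p : ℤ) ^ ν * (α * g * E L) * (v1 + (β * A L) * v2) + v2) with hΔ'
    have h6 : PadicInt.toZModPow L (Δ - Δ') = 0 := by
      rw [hΔ, hΔ', map_sub, map_sub, map_sub]
      unfold redP at h4 h5
      rw [h4, h5]
      ring
    have h7 := norm_of_red h6
    have h8 : ‖(1 - 7 * (p : ℚ_[p]) ^ ν * ((β * A L : ℤ) : ℚ_[p]) *
        ((g * B L : ℤ) : ℚ_[p])) ^ a‖ ≤ 1 := by
      have : (1 - 7 * (p : ℚ_[p]) ^ ν * ((β * A L : ℤ) : ℚ_[p]) * ((g * B L : ℤ) : ℚ_[p])) ^ a =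
          (((1 - 7 * (p : ℤ) ^ ν * (β * A L) * (g * B L)) ^ a : ℤ) : ℚ_[p]) := by
        push_cast
        ring
      rw [this]
      exact Padic.norm_int_le_one _
    have e : (1 - 7 * (p : ℚ_[p]) ^ ν * ((β * A L : ℤ) : ℚ_[p]) *
      ((g * B L : ℤ) : ℚ_[p])) ^ a * (Δ : ℚ_[p]) -
      ∑ i ∈ Finset.range (a + 1), ∑ j ∈ Finset.range (a + 1),
        P i j * (((β * A L : ℤ) : ℚ_[p]) ^ i * ((g * B L : ℤ) : ℚ_[p]) ^ j) =
        (1 - 7 * (p : ℚ_[p]) ^ ν * ((β * A L : ℤ) : ℚ_[p]) * ((g * B L : ℤ) : ℚ_[p])) ^ a *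
          ((Δ - Δ' : ℤ_[p]) : ℚ_[p]) +
        ((1 - 7 * (p : ℚ_[p]) ^ ν * ((β * A L : ℤ) : ℚ_[p]) * ((g * B L : ℤ) : ℚ_[p])) ^ a *
          (Δ' : ℚ_[p]) -
          ∑ i ∈ Finset.range (a + 1), ∑ j ∈ Finset.range (a + 1),
            P i j * (((β * A L : ℤ) : ℚ_[p]) ^ i * ((g * B L : ℤ) : ℚ_[p]) ^ j)) := by
      have e0 : ((Δ - Δ' : ℤ_[p]) : ℚ_[p]) = (Δ : ℚ_[p]) - (Δ' : ℚ_[p]) := PadicInt.coe_sub _ _
      rw [e0]
      ring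
    rw [e]
    refine (Padic.nonarchimedean _ _).trans (max_le ?_ h1)
    rw [norm_mul]
    calc _ ≤ 1 * ((p : ℝ) ^ L)⁻¹ := mul_le_mul h8 h7 (norm_nonneg _) zero_le_one
      _ = _ := one_mul _
  have hfin := fin_lim a ν P (Δ : ℚ_[p]) α β g δ e hα0 hδ0 hdet A B hA hB hbd
  rw [fin_alg a ν (fun i j => P i j * ((7 : ℚ_[p]) ^ j)⁻¹) _ _ _ _ hα0 hδ0] at hfin
  have hl : (((((α * δ - β * ((p : ℤ) ^ ν * g)) ^ a : ℤ) : ℤ_[p]) * Δ : ℤ_[p]) : ℚ_[p]) =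
      (e : ℚ_[p]) ^ a * (Δ : ℚ_[p]) := by
    rw [hdet, PadicInt.coe_mul]
    push_cast
    rfl
  rw [hl, hfin]
  push_cast
  rfl

end Pool.Agent.Helper28.T7V
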