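import Pool.Agent.Helper28.T7V.M_FinH
import Pool.Agent.Helper28.T7W.GenQ
import Pool.Agent.Helper34.LV.M_RgT
import Pool.Agent.Helper51.LV.M_RgU
import Pool.Agent.Helper47.LV.M_EG
import Pool.Agent.Helper28.T7V.M_MS
import Pool.Agent.Helper28.T7V.M_MC
import Pool.Agent.Helper28.T7V.M_AV
import Pool.Agent.Helper28.T7V.M_UIW
import Pool.Agent.Helper28.T7V.M_LQC
import Pool.Agent.Helper28.T7V.M_LW1
import Pool.Agent.Helper28.T7V.M_LDen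
import Pool.Agent.Helper28.T7V.M_M2B
import Pool.Agent.Helper28.T7V.M_LTr
import Pool.Agent.Helper28.T7V.M_LW4
import Pool.Agent.Helper28.T7V.M_LW2
import Pool.Agent.Helper28.T7V.M_LPol
import Pool.Agent.Helper28.T7V.M_F2
import Pool.Agent.Helper28.T7V.M_MCG
import Pool.Agent.Helper28.T7V.M_LMap
import Pool.Agent.Helper28.T7V.M_F0
import Pool.Agent.Helper28.T7V.M_F1
import Pool.Agent.Helper28.T7V.M_LAll

/-!
# Theorem A for the symbols of the extended group implies nonvanishing at the levels `7`, `7p` (weights divisible by four), `7p^n`, `n ≥ 2`, `f | W_7 = f`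
-/

set_option autoImplicit false

namespace Pool.Agent.Helper28.T7V

open Pool.Agent.Helper14.CV (G0 Homog EqC act)
open Pool.Agent.Helper14.WK
open Pool.Agent.Helper28.WK
open Pool.Agent.Helper28.TL (IsNewN)
open Pool.Agent.Helper28.T7
open Pool.Agent.Helper28.TH (OkH ALPlus)

theorem mcT : MCH :=
  Pool.Agent.Helper28.T7V.hMC (Pool.Agent.Helper28.T7V.hMCG Pool.Agent.Helper28.T7W.hGp
    Pool.Agent.Helper2.WK.hPl1 Pool.Agent.Helper28.T7W.hCC)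

theorem msT : MSH :=
  Pool.Agent.Helper28.T7V.hMS mcT Pool.Agent.Helper2.WK.hPl1 Pool.Agent.Helper34.LV.hRgT
    Pool.Agent.Helper51.LV.hRgU

theorem uiwT : UIWH := Pool.Agent.Helper28.T7V.hUIW Pool.Agent.Helper88.T7W.hUIp

theorem center0 (p : ℕ) (hp : p.Prime) (hp2 : p ≠ 7) (κ : ℤ) (hκ : κ ≠ 0) (hTA : TAH p κ) (a : ℕ)
    (Φ : ℤ → ℤ → ℕ → ℂ) (hW : WSNH p a 0 Φ) : EqC (cp Φ a) 0 :=
  Pool.Agent.Helper28.T7V.hLQC Pool.Agent.Helper38.CV.hFar Pool.Agent.Helper28.T7V.hLMap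
    Pool.Agent.Helper28.T7V.hLDen p ⟨hp⟩ a 0
    (fun Φ h => hZ0 Pool.Agent.Helper28.T7W.hLa Pool.Agent.Helper28.T7W.hLb2
      Pool.Agent.Helper88.T7W.hUIp
      Pool.Agent.Helper28.T7V.hLPol uiwT msT
      Pool.Agent.Helper34.LV.hRgT Pool.Agent.Helper51.LV.hRgU Pool.Agent.Helper28.T7V.hF0
      Pool.Agent.Helper28.T7V.hLW1 Pool.Agent.Helper28.T7V.hLW2 Pool.Agent.Helper28.T7V.hLW4
      p ⟨hp⟩ κ hp2 hκ hTA a Φ h) Φ hW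

theorem center1 (p : ℕ) (hp : p.Prime) (hp2 : p ≠ 7) (κ : ℤ) (hκ : κ ≠ 0) (hTA : TAH p κ) (a : ℕ)
    (ha : Odd a) (Φ : ℤ → ℤ → ℕ → ℂ) (hW : WSNH p a 1 Φ) : EqC (cp Φ a) 0 :=
  Pool.Agent.Helper28.T7V.hLQC Pool.Agent.Helper38.CV.hFar Pool.Agent.Helper28.T7V.hLMap
    Pool.Agent.Helper28.T7V.hLDen p ⟨hp⟩ a 1
    (fun Φ h => hZ1 Pool.Agent.Helper28.T7W.hLa Pool.Agent.Helper28.T7W.hLb2
      Pool.Agent.Helper88.T7W.hUIp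
      Pool.Agent.Helper28.T7V.hLPol uiwT msT
      Pool.Agent.Helper34.LV.hRgT Pool.Agent.Helper51.LV.hRgU Pool.Agent.Helper47.LV.hEG
      Pool.Agent.Helper28.T7V.hF1
      Pool.Agent.Helper28.T7V.hLW1 Pool.Agent.Helper28.T7V.hLW2 Pool.Agent.Helper28.T7V.hLW4
      p ⟨hp⟩ κ hp2 hκ hTA a ha Φ h) Φ hW

theorem center2 (p : ℕ) (hp : p.Prime) (hp2 : p ≠ 7) (κ : ℤ) (hκ : κ ≠ 0) (hTA : TAH p κ) (a : ℕ)
    (Φ : ℤ → ℤ → ℕ → ℂ) (hW : WSymH p a 0 Φ) : EqC (cp Φ a) 0 :=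
  Pool.Agent.Helper28.T7W.hQC Pool.Agent.Helper38.CV.hFar Pool.Agent.Helper28.T7W.hMap
    Pool.Agent.Helper28.T7W.hDen p ⟨hp⟩ a 0
    (fun Φ h => hZ2 Pool.Agent.Helper28.T7W.hLa Pool.Agent.Helper28.T7W.hLb2
      Pool.Agent.Helper88.T7W.hUIp
      Pool.Agent.Helper28.T7W.hPol mcT Pool.Agent.Helper34.LV.hRgT Pool.Agent.Helper51.LV.hRgU
      Pool.Agent.Helper47.LV.hEG Pool.Agent.Helper28.T7V.hM2B Pool.Agent.Helper28.T7V.hAV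
      Pool.Agent.Helper28.T7V.hF2 Pool.Agent.Helper28.T7W.hW1 Pool.Agent.Helper28.T7W.hW2
      Pool.Agent.Helper28.T7W.hW4 p ⟨hp⟩ κ hp2 hκ hTA a Φ h) Φ hW

/-- Level `7`. -/
theorem genV0 (p : ℕ) (hp : p.Prime) (hp2 : p ≠ 7) (κ : ℤ) (hκ : κ ≠ 0) (hTA : TAH p κ)
    (A : ℕ) (hA : 1 ≤ A) (hne : NeZero (7 * p ^ 0)) (hk : 0 < (2 * A + 2 : ℤ))
    (f : CuspForm (G0 (7 * p ^ 0)) (2 * A + 2)) (hf : IsNewN f) (hal : ALPlus 7 (p ^ 0) f)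
    (hε : RootOneK hk f) : LanK hk f (1 / 2) ≠ 0 :=
  hFinV Pool.Agent.Helper28.T7V.hLTr Pool.Agent.Helper28.T7V.hLAll p hp hp2 A 0 hA
    (fun Φ hW => center0 p hp hp2 κ hκ hTA A Φ hW) hne hk f hf hal hε

/-- Level `7p`, weights divisible by four. -/
theorem genV1 (p : ℕ) (hp : p.Prime) (hp2 : p ≠ 7) (κ : ℤ) (hκ : κ ≠ 0) (hTA : TAH p κ)
    (A : ℕ) (hA : 1 ≤ A) (hodd : Odd A) (hne : NeZero (7 * p ^ 1)) (hk : 0 < (2 * A + 2 : ℤ))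
    (f : CuspForm (G0 (7 * p ^ 1)) (2 * A + 2)) (hf : IsNewN f) (hal : ALPlus 7 (p ^ 1) f)
    (hε : RootOneK hk f) : LanK hk f (1 / 2) ≠ 0 :=
  hFinV Pool.Agent.Helper28.T7V.hLTr Pool.Agent.Helper28.T7V.hLAll p hp hp2 A 1 hA
    (fun Φ hW => center1 p hp hp2 κ hκ hTA A hodd Φ hW) hne hk f hf hal hε

/-- Level `7p^n`, `n ≥ 2`. -/
theorem genV2 (p : ℕ) (hp : p.Prime) (hp2 : p ≠ 7) (κ : ℤ) (hκ : κ ≠ 0) (hTA : TAH p κ)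
    (A n : ℕ) (hA : 1 ≤ A) (hn : 2 ≤ n) (hne : NeZero (7 * p ^ n)) (hk : 0 < (2 * A + 2 : ℤ))
    (f : CuspForm (G0 (7 * p ^ n)) (2 * A + 2)) (hf : IsNewN f) (hal : ALPlus 7 (p ^ n) f)
    (hε : RootOneK hk f) : LanK hk f (1 / 2) ≠ 0 := by
  by_cases h3n : 3 ≤ n
  · exact Pool.Agent.Helper28.T7W.genH p hp hp2 κ hκ hTA A n hA h3n hne hk f hf hal hε
  obtain rfl : n = 2 := by omega
  exact Pool.Agent.Helper28.T7W.hFinH Pool.Agent.Helper28.T7W.hTr Pool.Agent.Helper28.T7W.hAll p hp hp2 A 0 hA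
    (fun Φ hW => center2 p hp hp2 κ hκ hTA A Φ hW) hne hk f hf hal hε

end Pool.Agent.Helper28.T7V
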